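import Pool.Agent.Lib.MP_1c0d65_gt.A.CP

/-! Integration on the Riemann sphere in the two charts `z` and `1 / z`; the formula of Stokes. -/

set_option autoImplicit false

open scoped ContDiff Topology Real
open Set Filter Function MeasureTheory Metric
open Complex (I)

noncomputable section

namespace Pool.Agent.Lib.MP_1c0d65_gt.Emb

/-- The differential of the inversion. -/
def dinv (z : ℂ) : ℂ →L[ℝ] ℂ :=
  (ContinuousLinearMap.toSpanSingleton ℂ (-(z ^ 2)⁻¹ : ℂ)).restrictScalars ℝ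

theorem dinv_apply (z v : ℂ) : dinv z v = -(v / z ^ 2) := by simp [dinv, div_eq_mul_inv]

theorem hasFDerivAt_inv {z : ℂ} (hz : z ≠ 0) : HasFDerivAt (fun w : ℂ => w⁻¹) (dinv z) z :=
  (hasDerivAt_inv hz).hasFDerivAt.restrictScalars ℝ

theorem det_dinv (z : ℂ) : |(dinv z).det| = ‖z‖⁻¹ ^ 4 := by
  have h : (dinv z).det = Algebra.norm ℝ (-(z ^ 2)⁻¹ : ℂ) := by
    have := LinearMap.det_restrictScalars (R := ℝ) (S := ℂ)
      (f := (ContinuousLinearMap.toSpanSingleton ℂ (-(z ^ 2)⁻¹ : ℂ) : ℂ →ₗ[ℂ] ℂ))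
    rw [← ContinuousLinearMap.det, ContinuousLinearMap.det_toSpanSingleton] at this
    exact this
  rw [h, Algebra.norm_complex_apply, abs_of_nonneg (Complex.normSq_nonneg _),
    Complex.normSq_eq_norm_sq]
  simp only [norm_neg, norm_inv, norm_pow]
  rw [inv_pow, inv_pow, ← pow_mul]

theorem inv_image : (fun w : ℂ => w⁻¹) '' {0}ᶜ = {0}ᶜ := by
  ext z
  simp [image_inv_eq_inv]

theorem restrict_ne : (volume : Measure ℂ).restrict {0}ᶜ = volume :=
  Measure.restrict_eq_self_of_ae_mem (compl_mem_ae_iff.2 (measure_singleton 0))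

/-- Change of variables by the inversion. -/
theorem int_inv (g : ℂ → ℝ) : ∫ z, ‖z‖⁻¹ ^ 4 * g z⁻¹ = ∫ w, g w := by
  have := integral_image_eq_integral_abs_det_fderiv_smul volume
    (measurableSet_singleton (0 : ℂ)).compl (fun z hz => (hasFDerivAt_inv hz).hasFDerivWithinAt)
    inv_injective.injOn g
  rw [inv_image, restrict_ne] at this
  simp only [this, det_dinv, smul_eq_mul]

theorem intg_inv {g : ℂ → ℝ} (hg : Integrable g) : Integrable fun z : ℂ => ‖z‖⁻¹ ^ 4 * g z⁻¹ := by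
  have := integrableOn_image_iff_integrableOn_abs_det_fderiv_smul volume
    (measurableSet_singleton (0 : ℂ)).compl (fun z hz => (hasFDerivAt_inv hz).hasFDerivWithinAt)
    inv_injective.injOn g
  rw [inv_image, IntegrableOn, IntegrableOn, restrict_ne] at this
  simpa only [det_dinv, smul_eq_mul] using this.1 hg

/-- A partition of unity on the sphere. -/
structure PU (χ ψ : ℂ → ℝ) : Prop where
  sχ : ContDiff ℝ ∞ χ
  sψ : ContDiff ℝ ∞ ψ
  cχ : HasCompactSupport χ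
  cψ : HasCompactSupport ψ
  one : χ 0 = 1
  sum : ∀ z, z ≠ 0 → χ z + ψ z⁻¹ = 1
  zχ : ∀ z, 2 ≤ ‖z‖ → χ z = 0
  zψ : ∀ z, 1 ≤ ‖z‖ → ψ z = 0

theorem exists_pu : ∃ χ ψ, PU χ ψ := by
  classical
  let b : ContDiffBump (0 : ℂ) := ⟨1, 2, one_pos, one_lt_two⟩
  have h2 : ∀ z : ℂ, 2 ≤ ‖z‖ → b z = 0 := fun z hz => b.zero_of_le_dist (by simpa using hz)
  have h1 : ∀ z : ℂ, 1 ≤ ‖z‖ → (if z = 0 then 1 else 1 - b z⁻¹) = (0 : ℝ) := fun z hz => by
    rw [if_neg (by rintro rfl; norm_num at hz), b.one_of_mem_closedBall, sub_self]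
    simpa using inv_le_one_of_one_le₀ hz
  refine ⟨b, fun w => if w = 0 then 1 else 1 - b w⁻¹, b.contDiff, contDiff_iff_contDiffAt.2 fun w => ?_,
    b.hasCompactSupport, HasCompactSupport.intro (isCompact_closedBall 0 1) fun z hz => h1 z ?_,
    b.one_of_mem_closedBall (by simp [b]), fun z hz => by simp [hz], h2, h1⟩
  · by_cases hw : w = 0
    · refine (contDiffAt_const (c := (1 : ℝ))).congr_of_eventuallyEq ?_
      subst hw
      filter_upwards [ball_mem_nhds (0 : ℂ) (by norm_num : (0 : ℝ) < 2⁻¹)] with z hz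
      by_cases h0 : z = 0
      · exact if_pos h0
      · rw [if_neg h0, h2, sub_zero]
        rw [norm_inv, le_inv_comm₀ two_pos (norm_pos_iff.2 h0)]
        exact (mem_ball_zero_iff.1 hz).le
    · refine ((contDiffAt_const (c := (1 : ℝ))).sub (b.contDiff.contDiffAt.comp w
        ((contDiffAt_inv ℂ hw).restrict_scalars ℝ))).congr_of_eventuallyEq ?_
      filter_upwards [isOpen_ne.mem_nhds hw] with z hz
      exact if_neg hz
  · exact (not_le.1 (mt mem_closedBall_zero_iff.2 hz)).le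

theorem intg_cut {χ f : ℂ → ℝ} (hχ : Continuous χ) (hc : HasCompactSupport χ) (hf : Continuous f) :
    Integrable fun z => χ z * f z :=
  (hχ.mul hf).integrable_of_hasCompactSupport hc.mul_right

/-- The integral of a continuous two-form on the sphere. -/
theorem PU.split {χ ψ : ℂ → ℝ} (P : PU χ ψ) {f0 f1 : ℂ → ℝ} (h0 : Continuous f0)
    (h1 : Continuous f1) (h : ∀ z, z ≠ 0 → f0 z = ‖z‖⁻¹ ^ 4 * f1 z⁻¹) :
    Integrable f0 ∧ ∫ z, f0 z = (∫ z, χ z * f0 z) + ∫ z, ψ z * f1 z := by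
  have i0 := intg_cut P.sχ.continuous P.cχ h0
  have i1 := intg_inv (intg_cut P.sψ.continuous P.cψ h1)
  have e : f0 =ᵐ[volume] fun z => χ z * f0 z + ‖z‖⁻¹ ^ 4 * (ψ z⁻¹ * f1 z⁻¹) := by
    filter_upwards [compl_mem_ae_iff.2 (measure_singleton (0 : ℂ))] with z hz
    rw [mul_left_comm, ← h z hz, ← add_mul, P.sum z hz, one_mul]
  exact ⟨(i0.add i1).congr e.symm, by
    rw [integral_congr_ae e, integral_add i0 i1, int_inv fun w => ψ w * f1 w]⟩

/-- The density of the exterior derivative of a one-form in the plane. -/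
def dd (β : ℂ → ℂ →L[ℝ] ℝ) (z : ℂ) : ℝ := fderiv ℝ β z 1 I - fderiv ℝ β z I 1

theorem continuous_dd {β : ℂ → ℂ →L[ℝ] ℝ} (h : ContDiff ℝ 1 β) : Continuous (dd β) := by
  have := h.continuous_fderiv one_ne_zero
  unfold dd
  fun_prop

theorem parts {χ : ℂ → ℝ} (hχ : ContDiff ℝ ∞ χ) (hc : HasCompactSupport χ)
    {β : ℂ → ℂ →L[ℝ] ℝ} (h : ContDiff ℝ 1 β) :
    ∫ z, χ z * dd β z = -∫ z, (fderiv ℝ χ z 1 * β z I - fderiv ℝ χ z I * β z 1) := by
  have hb := h.continuous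
  have hd := h.continuous_fderiv one_ne_zero
  have hx := hχ.continuous_fderiv (by simp)
  have i1 : ∀ v w : ℂ, Integrable fun z => fderiv ℝ χ z v * β z w := fun v w =>
    intg_cut (by fun_prop) (hc.fderiv_apply ℝ v) (by fun_prop)
  have i2 : ∀ v w : ℂ, Integrable fun z => χ z * fderiv ℝ β z v w := fun v w =>
    intg_cut hχ.continuous hc (by fun_prop)
  have e : ∀ v w z : ℂ, fderiv ℝ (fun z => β z w) z v = fderiv ℝ β z v w := fun v w z => by
    rw [fderiv_clm_apply (h.differentiable one_ne_zero z) (differentiableAt_const w)]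
    simp
  have key : ∀ v w : ℂ, ∫ z, χ z * fderiv ℝ β z v w = -∫ z, fderiv ℝ χ z v * β z w := fun v w => by
    simp_rw [← e]
    exact integral_mul_fderiv_eq_neg_fderiv_mul_of_integrable (i1 v w) (by simpa only [e] using i2 v w)
      (intg_cut hχ.continuous hc (by fun_prop)) (fun x _ => hχ.differentiable (by simp) x)
      fun x _ => (h.differentiable one_ne_zero x).clm_apply (differentiableAt_const w)
  simp only [dd, mul_sub]
  rw [integral_sub (i2 _ _) (i2 _ _), integral_sub (i1 _ _) (i1 _ _), key, key]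
  ring

theorem alt_mul (B : ℂ →L[ℝ] ℂ →L[ℝ] ℝ) (a : ℂ) :
    B a (a * I) - B (a * I) a = ‖a‖ ^ 2 * (B 1 I - B I 1) := by
  have h1 : a = a.re • (1 : ℂ) + a.im • I := by simp
  have h2 : a * I = (-a.im) • (1 : ℂ) + a.re • I := by apply Complex.ext <;> simp
  rw [h2, Complex.sq_norm, Complex.normSq_apply]
  generalize a.re = x at h1 ⊢
  generalize a.im = y at h1 ⊢
  rw [h1]
  simp only [map_add, map_smul, add_apply, smul_apply, smul_eq_mul]
  ring

theorem norm_dinv (z : ℂ) : ‖dinv z 1‖ ^ 2 = ‖z‖⁻¹ ^ 4 := by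
  rw [dinv_apply, norm_neg, one_div, norm_inv, norm_pow, inv_pow, inv_pow, ← pow_mul]

theorem dinv_I (z : ℂ) : dinv z I = dinv z 1 * I := by
  rw [dinv_apply, dinv_apply]; ring

theorem fderiv_app {β : ℂ → ℂ →L[ℝ] ℝ} {z : ℂ} (h : DifferentiableAt ℝ β z) (v w : ℂ) :
    fderiv ℝ (fun z => β z w) z v = fderiv ℝ β z v w := by
  rw [fderiv_clm_apply h (differentiableAt_const w)]
  simp

/-- Two one-forms that differ by a multiple of the angle form have the same derivative. -/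
theorem dd_compat {β0 β1 : ℂ → ℂ →L[ℝ] ℝ} (h0 : ContDiff ℝ 1 β0) (h1 : ContDiff ℝ 1 β1) {k : ℝ}
    (hβ : ∀ z, z ≠ 0 → ∀ v, β0 z v = β1 z⁻¹ (dinv z v) + k * (v / z).im) (z : ℂ) (hz : z ≠ 0) :
    dd β0 z = ‖z‖⁻¹ ^ 4 * dd β1 z⁻¹ := by
  have key : ∀ w v : ℂ, fderiv ℝ β0 z w v = fderiv ℝ β1 z⁻¹ (dinv z w) (dinv z v) +
      β1 z⁻¹ (w * v * (2 / z ^ 3)) + k * (w * v * (-1 / z ^ 2)).im := fun w v => by
    have a1 := (h1.differentiable one_ne_zero z⁻¹).hasFDerivAt.comp z (hasFDerivAt_inv hz)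
    have a2 : HasDerivAt (fun z : ℂ => dinv z v) (v * (2 / z ^ 3)) z := by
      simp only [dinv_apply]
      refine (((hasDerivAt_const z v).div (hasDerivAt_pow 2 z) (pow_ne_zero 2 hz)).neg).congr_deriv ?_
      field_simp
      norm_num
      ring
    have a3 : HasDerivAt (fun z : ℂ => v / z) (v * (-1 / z ^ 2)) z := by
      refine ((hasDerivAt_const z v).div (hasDerivAt_id z) hz).congr_deriv ?_
      simp only [id]
      ring
    have a4 := (a1.clm_apply (a2.hasFDerivAt.restrictScalars ℝ)).add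
      ((Complex.imCLM.hasFDerivAt.comp z (a3.hasFDerivAt.restrictScalars ℝ)).const_mul k)
    have a5 : (fun z => β0 z v) =ᶠ[𝓝 z] _ := (isOpen_ne.eventually_mem hz).mono fun y hy => hβ y hy v
    rw [← fderiv_app (h0.differentiable one_ne_zero z), (a4.congr_of_eventuallyEq a5).fderiv]
    simp [mul_assoc, add_comm]
  rw [dd, key, key, dinv_I, mul_comm I 1, dd, ← norm_dinv, ← alt_mul]
  ring

theorem int_angle {χ : ℂ → ℝ} (hχ : ContDiff ℝ ∞ χ) (hc : HasCompactSupport χ) (h : χ 0 = 1) :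
    ∫ z, (fderiv ℝ χ z 1 * (I / z).im - fderiv ℝ χ z I * (1 / z).im) = -(2 * π * χ 0) := by
  have h1 : ContDiff ℝ 1 fun z => (χ z : ℂ) :=
    Complex.ofRealCLM.contDiff.comp (hχ.of_le (by simp))
  have h2 := A.cp h1 (hc.comp_left (g := fun t : ℝ => (t : ℂ)) (by simp)) 0
  have h3 : ∀ z v, fderiv ℝ (fun z => (χ z : ℂ)) z v = fderiv ℝ χ z v := fun z v => by
    rw [(Complex.ofRealCLM.hasFDerivAt.comp z (hχ.differentiable (by simp) z).hasFDerivAt).fderiv
      |> Eq.trans (show fderiv ℝ (fun z => (χ z : ℂ)) z = _ from rfl)]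
    rfl
  have hi : Integrable fun s : ℂ => (0 - s)⁻¹ • A.db (fderiv ℝ (fun z => (χ z : ℂ)) s) := by
    by_contra hn
    rw [A.T, integral_undef hn] at h2
    simp [h] at h2
  have h4 : ∀ z : ℂ, fderiv ℝ χ z 1 * (I / z).im - fderiv ℝ χ z I * (1 / z).im =
      -2 * Complex.reCLM ((0 - z)⁻¹ • A.db (fderiv ℝ (fun z => (χ z : ℂ)) z)) := fun z => by
    simp only [A.db, h3, div_eq_mul_inv, zero_sub, inv_neg]
    generalize z⁻¹ = w
    simp
    ring
  simp_rw [h4]
  rw [integral_const_mul, Complex.reCLM.integral_comp_comm hi]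
  rw [A.T, inv_smul_eq_iff₀ (by exact_mod_cast Real.pi_ne_zero)] at h2
  rw [h2]
  simp
  ring

/-- The formula of Stokes on the sphere. -/
theorem stokes {β0 β1 : ℂ → ℂ →L[ℝ] ℝ} (h0 : ContDiff ℝ 1 β0) (h1 : ContDiff ℝ 1 β1) {k : ℝ}
    (hβ : ∀ z, z ≠ 0 → ∀ v, β0 z v = β1 z⁻¹ (dinv z v) + k * (v / z).im) :
    ∫ z, dd β0 z = 2 * π * k := by
  obtain ⟨χ, ψ, P⟩ := exists_pu
  rw [(P.split (continuous_dd h0) (continuous_dd h1) (dd_compat h0 h1 hβ)).2, parts P.sχ P.cχ h0,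
    parts P.sψ P.cψ h1, ← int_inv fun z => fderiv ℝ ψ z 1 * β1 z I - fderiv ℝ ψ z I * β1 z 1]
  have hb := h0.continuous
  have hb1 := h1.continuous
  have hx := P.sχ.continuous_fderiv (by simp)
  have hx1 := P.sψ.continuous_fderiv (by simp)
  have i0 : Integrable fun z => fderiv ℝ χ z 1 * β0 z I - fderiv ℝ χ z I * β0 z 1 :=
    (intg_cut (by fun_prop) (P.cχ.fderiv_apply ℝ 1) (by fun_prop)).sub
      (intg_cut (by fun_prop) (P.cχ.fderiv_apply ℝ I) (by fun_prop))
  have i1 := intg_inv (g := fun z => fderiv ℝ ψ z 1 * β1 z I - fderiv ℝ ψ z I * β1 z 1)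
    ((intg_cut (by fun_prop) (P.cψ.fderiv_apply ℝ 1) (by fun_prop)).sub
      (intg_cut (by fun_prop) (P.cψ.fderiv_apply ℝ I) (by fun_prop)))
  have h2 := int_angle P.sχ P.cχ P.one
  rw [← neg_add, ← integral_add i0 i1, neg_eq_iff_eq_neg, ← mul_one (2 * π), ← P.one, ← neg_mul,
    ← h2, ← integral_mul_const]
  refine integral_congr_ae ?_
  filter_upwards [compl_mem_ae_iff.2 (measure_singleton (0 : ℂ))] with z hz
  have h3 : ∀ v, fderiv ℝ ψ z⁻¹ (dinv z v) = -fderiv ℝ χ z v := fun v => by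
    have a1 := (P.sχ.differentiable (by simp) z).hasFDerivAt.add
      ((P.sψ.differentiable (by simp) z⁻¹).hasFDerivAt.comp z (hasFDerivAt_inv hz))
    have a2 := a1.unique ((hasFDerivAt_const (1 : ℝ) z).congr_of_eventuallyEq
      ((isOpen_ne.eventually_mem hz).mono fun y hy => P.sum y hy))
    exact eq_neg_of_add_eq_zero_right (congrArg (fun t : ℂ →L[ℝ] ℝ => t v) a2)
  have h4 := alt_mul ((fderiv ℝ ψ z⁻¹).smulRight (β1 z⁻¹)) (dinv z 1)
  simp only [ContinuousLinearMap.smulRight_apply, smul_apply, smul_eq_mul, norm_dinv,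
    ← dinv_I, h3] at h4
  rw [← h4, hβ z hz, hβ z hz]
  ring

end Pool.Agent.Lib.MP_1c0d65_gt.Emb
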