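import Mathlib

/-! A compact manifold embedded in a euclidean space is a smooth retract of a neighbourhood. -/

set_option autoImplicit false
set_option linter.unusedSectionVars false

open scoped Manifold ContDiff Topology RealInnerProductSpace
open Filter Set Function

namespace Pool.Agent.Lib.MP_1c0d65_gt.Emb

/-- The inverse function theorem with a local inverse that is smooth near the point. -/
theorem exists_smooth_inv {A B : Type*} [NormedAddCommGroup A] [NormedSpace ℝ A] [CompleteSpace A]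
    [NormedAddCommGroup B] [NormedSpace ℝ B] {f : A → B} {a : A}
    (hf : ∀ᶠ x in 𝓝 a, ContDiffAt ℝ ∞ f x) (f' : A ≃L[ℝ] B) (hf' : HasFDerivAt f (f' : A →L[ℝ] B) a) :
    ∃ h : OpenPartialHomeomorph A B, (h : A → B) = f ∧ a ∈ h.source ∧
      ∀ᶠ b in 𝓝 (f a), ContDiffAt ℝ ∞ h.symm b := by
  have h0 := hf.self_of_nhds
  let h := h0.toOpenPartialHomeomorph f hf' (by simp)
  have ha : a ∈ h.source := h0.mem_toOpenPartialHomeomorph_source hf' (by simp)
  refine ⟨h, rfl, ha, ?_⟩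
  have h1 : ∀ᶠ x in 𝓝 a, fderiv ℝ f x ∈ range ((↑) : (A ≃L[ℝ] B) → A →L[ℝ] B) :=
    (h0.continuousAt_fderiv (by simp)).eventually (by rw [hf'.fderiv]; exact f'.nhds)
  have h2 : Tendsto h.symm (𝓝 (f a)) (𝓝 a) := h.tendsto_symm ha
  filter_upwards [h2.eventually (hf.and h1), h.open_target.mem_nhds (h.map_source ha)] with b hb hb'
  obtain ⟨g, hg⟩ := hb.2
  exact h.contDiffAt_symm hb' (f₀' := g)
    (hg ▸ (hb.1.differentiableAt (by simp)).hasFDerivAt) hb.1

/-- A map that is smooth near a closed set agrees near it with a smooth map. -/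
theorem exists_contDiff_ext {A B : Type*} [NormedAddCommGroup A] [NormedSpace ℝ A]
    [FiniteDimensional ℝ A] [NormedAddCommGroup B] [NormedSpace ℝ B] {f : A → B} {K U : Set A}
    (hK : IsClosed K) (hU : IsOpen U) (hKU : K ⊆ U) (hf : ContDiffOn ℝ ∞ f U) :
    ∃ g : A → B, ContDiff ℝ ∞ g ∧ g =ᶠ[𝓝ˢ K] f ∧ ∀ x ∉ U, g x = 0 := by
  obtain ⟨χ, h0, h1, -⟩ := exists_contMDiffMap_zero_one_nhds_of_isClosed (n := ⊤) 𝓘(ℝ, A)
    hU.isClosed_compl hK (disjoint_compl_left_iff_subset.2 hKU)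
  have hχ : ContDiff ℝ ∞ χ := χ.contMDiff.contDiff
  refine ⟨fun x => χ x • f x, contDiff_iff_contDiffAt.2 fun x => ?_, ?_, fun x hx => ?_⟩
  · by_cases hx : x ∈ U
    · exact hχ.contDiffAt.smul (hf.contDiffAt (hU.mem_nhds hx))
    · refine (contDiffAt_const (c := (0 : B))).congr_of_eventuallyEq ?_
      filter_upwards [h0.filter_mono (nhds_le_nhdsSet hx)] with y hy
      rw [hy, zero_smul]
  · filter_upwards [h1] with y hy
    rw [hy, one_smul]
  · exact (congrArg (· • f x) (h0.self_of_nhdsSet x hx)).trans (zero_smul _ _)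

variable {E F : Type*} [NormedAddCommGroup E] [NormedSpace ℝ E] [FiniteDimensional ℝ E]
  [NormedAddCommGroup F] [InnerProductSpace ℝ F] [FiniteDimensional ℝ F]

/-- The equation of the critical points of the distance. -/
noncomputable def crit (φ : E → F) (p : F × E) : F × (E →L[ℝ] ℝ) :=
  (p.1, (innerSL ℝ (p.1 - φ p.2)).comp (fderiv ℝ φ p.2))

theorem contDiffAt_crit {φ : E → F} {p : F × E} (h : ContDiffAt ℝ ∞ φ p.2) :
    ContDiffAt ℝ ∞ (crit φ) p := by
  have h1 : ContDiffAt ℝ ∞ (fun q : F × E => fderiv ℝ φ q.2) p :=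
    (h.fderiv_right (m := ∞) (by simp)).comp p contDiffAt_snd
  have h2 : ContDiffAt ℝ ∞ (fun q : F × E => innerSL ℝ (q.1 - φ q.2)) p :=
    (innerSL ℝ (E := F)).contDiff.contDiffAt.comp p (contDiffAt_fst.sub (h.comp p contDiffAt_snd))
  exact contDiffAt_fst.prodMk (h2.clm_comp h1)

theorem exists_fderiv_crit {φ : E → F} {s : E} (h : ContDiffAt ℝ ∞ φ s)
    (hi : Injective (fderiv ℝ φ s)) : ∃ g : (F × E) ≃L[ℝ] (F × (E →L[ℝ] ℝ)),
      HasFDerivAt (crit φ) (g : (F × E) →L[ℝ] (F × (E →L[ℝ] ℝ))) (φ s, s) := by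
  have hd := (contDiffAt_crit (p := (φ s, s)) h).differentiableAt (by simp)
  have h1 : HasFDerivAt (fun q : F × E => fderiv ℝ φ q.2)
      ((fderiv ℝ (fderiv ℝ φ) s).comp (ContinuousLinearMap.snd ℝ F E)) (φ s, s) :=
    HasFDerivAt.comp (φ s, s) (g := fderiv ℝ φ) (f := Prod.snd)
      ((h.fderiv_right (m := ∞) (by simp)).differentiableAt (by simp)).hasFDerivAt hasFDerivAt_snd
  have h2 : HasFDerivAt (fun q : F × E => innerSL ℝ (q.1 - φ q.2))
      ((innerSL ℝ (E := F)).comp (ContinuousLinearMap.fst ℝ F E -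
        (fderiv ℝ φ s).comp (ContinuousLinearMap.snd ℝ F E))) (φ s, s) :=
    (innerSL ℝ (E := F)).hasFDerivAt.comp (φ s, s) (hasFDerivAt_fst.sub
      (HasFDerivAt.comp (φ s, s) (g := φ) (f := Prod.snd)
        (h.differentiableAt (by simp)).hasFDerivAt hasFDerivAt_snd))
  have h3 := hasFDerivAt_fst.prodMk (h2.clm_comp h1)
  have inj : Injective (fderiv ℝ (crit φ) (φ s, s)) := by
    rw [show fderiv ℝ (crit φ) (φ s, s) = _ from h3.fderiv, injective_iff_map_eq_zero]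
    rintro ⟨η, σ⟩ h0
    have e1 : η = 0 := congrArg Prod.fst h0
    have e2 := congrArg (fun t : F × (E →L[ℝ] ℝ) => t.2 σ) h0
    subst e1
    simp at e2
    exact Prod.ext rfl (hi (e2.trans (map_zero _).symm))
  have hr : Module.finrank ℝ (F × E) = Module.finrank ℝ (F × (E →L[ℝ] ℝ)) := by
    rw [Module.finrank_prod, Module.finrank_prod,
      ← (LinearMap.toContinuousLinearMap (𝕜 := ℝ) (E := E) (F' := ℝ)).finrank_eq]
    exact congrArg _ (Subspace.dual_finrank_eq (K := ℝ) (V := E)).symm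
  exact ⟨((fderiv ℝ (crit φ) (φ s, s)).toLinearMap.linearEquivOfInjective inj hr).toContinuousLinearEquiv,
    hd.hasFDerivAt⟩

variable {X : Type*} [TopologicalSpace X] [ChartedSpace E X] [IsManifold 𝓘(ℝ, E) ∞ X]
  [CompactSpace X] [T2Space X] {e : X → F}

theorem exists_near [Nonempty X] (he : Continuous e) (y : F) :
    ∃ x, ∀ x', ‖y - e x‖ ≤ ‖y - e x'‖ := by
  obtain ⟨x, -, hx⟩ := isCompact_univ.exists_isMinOn univ_nonempty
    (f := fun x => ‖y - e x‖) (by fun_prop)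
  exact ⟨x, fun x' => hx (mem_univ x')⟩

/-- The local form of the nearest point. -/
theorem near_local (he : ContMDiff 𝓘(ℝ, E) 𝓘(ℝ, F) ∞ e) (hi : Injective e)
    (hd : ∀ x, Injective (mfderiv 𝓘(ℝ, E) 𝓘(ℝ, F) e x)) {r : F → X}
    (hr : ∀ y x', ‖y - e (r y)‖ ≤ ‖y - e x'‖) (x : X) :
    (∀ᶠ y in 𝓝 (e x), ContMDiffAt 𝓘(ℝ, F) 𝓘(ℝ, E) ∞ r y) ∧
      ∀ᶠ y in 𝓝 (e x), (∀ v, ⟪y - e x, mfderiv 𝓘(ℝ, E) 𝓘(ℝ, F) e x v⟫ = 0) → r y = x := by
  set c := extChartAt 𝓘(ℝ, E) x
  set φ : E → F := e ∘ c.symm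
  have hφ : ∀ s ∈ c.target, ContDiffAt ℝ ∞ φ s := fun s hs =>
    ((he _).comp s ((contMDiffOn_extChartAt_symm x).contMDiffAt
      ((isOpen_extChartAt_target x).mem_nhds hs))).contDiffAt
  have hx : φ (c x) = e x := congrArg e (extChartAt_to_inv x)
  have hs := mem_extChartAt_target (I := 𝓘(ℝ, E)) x
  have hD : fderiv ℝ φ (c x) = mfderiv 𝓘(ℝ, E) 𝓘(ℝ, F) e x := by
    rw [((he x).mdifferentiableAt (by simp)).mfderiv]
    simp [writtenInExtChartAt, φ, c]
  obtain ⟨g, hg⟩ := exists_fderiv_crit (hφ _ hs) (hD ▸ hd x)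
  obtain ⟨h, hh, hm, hsm⟩ := exists_smooth_inv (f := crit φ) (a := (φ (c x), c x))
    ((continuous_snd.continuousAt.eventually ((isOpen_extChartAt_target x).mem_nhds hs)).mono
      fun p hp => contDiffAt_crit (hφ _ hp)) g hg
  have h0 : crit φ (φ (c x), c x) = (e x, 0) := by simp [crit, hx]
  rw [hx] at hm
  rw [h0] at hsm
  have t1 : Tendsto r (𝓝 (e x)) (𝓝 x) := by
    rw [(he.continuous.isClosedEmbedding hi).isInducing.tendsto_nhds_iff, tendsto_iff_norm_sub_tendsto_zero]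
    refine squeeze_zero (fun _ => norm_nonneg _) (g := fun y => 2 * ‖y - e x‖) (fun y => ?_) ?_
    · have := norm_sub_le_norm_sub_add_norm_sub (e (r y)) y (e x)
      rw [norm_sub_rev (e (r y)) y] at this
      exact this.trans (by linarith [hr y x])
    · exact (show Continuous fun y : F => 2 * ‖y - e x‖ by fun_prop).tendsto' _ _ (by simp)
  have t2 : Tendsto (fun y => (y, c (r y))) (𝓝 (e x)) (𝓝 (e x, c x)) :=
    tendsto_id.prodMk_nhds ((continuousAt_extChartAt x).tendsto.comp t1)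
  have key : ∀ᶠ y in 𝓝 (e x), r y ∈ c.source ∧ c (r y) = (h.symm (y, 0)).2 := by
    filter_upwards [t1.eventually (extChartAt_source_mem_nhds (I := 𝓘(ℝ, E)) x),
      t2.eventually (h.open_source.mem_nhds hm)] with y h1 h2
    refine ⟨h1, ?_⟩
    have h3 : crit φ (y, c (r y)) = (y, 0) := by
      refine Prod.ext rfl ?_
      have h4 : IsLocalMin (fun s => ‖y - φ s‖ ^ 2) (c (r y)) := Eventually.of_forall fun s => by
        simp only [φ, comp_apply, c.left_inv h1]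
        exact pow_le_pow_left₀ (norm_nonneg _) (hr y _) 2
      have h5 := h4.hasFDerivAt_eq_zero ((((hφ _ (c.map_source h1)).differentiableAt
        (by simp)).hasFDerivAt.const_sub y).norm_sq)
      ext v
      have h6 := congrArg (fun t : E →L[ℝ] ℝ => t v) h5
      simp [crit] at h6 ⊢
      linarith
    rw [← h3, ← hh, h.left_inv h2]
  constructor
  · have t3 : Tendsto (fun y : F => (y, (0 : E →L[ℝ] ℝ))) (𝓝 (e x)) (𝓝 (e x, 0)) :=
      tendsto_id.prodMk_nhds tendsto_const_nhds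
    filter_upwards [key.eventually_nhds, t3.eventually hsm] with y h1 h2
    have h3 : ContDiffAt ℝ ∞ (fun y : F => (h.symm (y, 0)).2) y :=
      contDiffAt_snd.comp y (h2.comp y (contDiffAt_id.prodMk contDiffAt_const))
    have h4 := h1.self_of_nhds
    refine (((contMDiffOn_extChartAt_symm x).contMDiffAt ((isOpen_extChartAt_target x).mem_nhds
      (h4.2 ▸ c.map_source h4.1))).comp y h3.contMDiffAt).congr_of_eventuallyEq ?_
    filter_upwards [h1] with z hz
    rw [comp_apply, ← hz.2, c.left_inv hz.1]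
  · have t4 : Tendsto (fun y : F => (y, c x)) (𝓝 (e x)) (𝓝 (e x, c x)) :=
      tendsto_id.prodMk_nhds tendsto_const_nhds
    filter_upwards [key, t4.eventually (h.open_source.mem_nhds hm)] with y h1 h2 h3
    have h4 : crit φ (y, c x) = (y, 0) := by
      refine Prod.ext rfl ?_
      ext v
      change ⟪y - φ (c x), fderiv ℝ φ (c x) v⟫ = 0
      rw [hx, hD]
      exact h3 v
    rw [← h4, ← hh, h.left_inv h2] at h1
    exact c.injOn h1.1 (mem_extChartAt_source x) h1.2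

/-- The smooth retraction on an embedded compact manifold. -/
theorem exists_retr [Nonempty X] (he : ContMDiff 𝓘(ℝ, E) 𝓘(ℝ, F) ∞ e) (hi : Injective e)
    (hd : ∀ x, Injective (mfderiv 𝓘(ℝ, E) 𝓘(ℝ, F) e x)) :
    ∃ (U : Set F) (r : F → X), IsOpen U ∧ range e ⊆ U ∧ ContMDiffOn 𝓘(ℝ, F) 𝓘(ℝ, E) ∞ r U ∧
      (∀ x, r (e x) = x) ∧ (∀ y x, ‖y - e (r y)‖ ≤ ‖y - e x‖) ∧
      ∀ x (ν : F), (∀ v, ⟪ν, mfderiv 𝓘(ℝ, E) 𝓘(ℝ, F) e x v⟫ = 0) →
        mfderiv 𝓘(ℝ, F) 𝓘(ℝ, E) r (e x) ν = 0 := by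
  choose r hr using exists_near he.continuous
  have hre : ∀ x, r (e x) = x := fun x => hi (by
    have := hr (e x) x
    rw [sub_self, norm_zero, norm_le_zero_iff, sub_eq_zero] at this
    exact this.symm)
  refine ⟨interior {y | ContMDiffAt 𝓘(ℝ, F) 𝓘(ℝ, E) ∞ r y}, r, isOpen_interior, ?_,
    fun y hy => (interior_subset hy).contMDiffWithinAt, hre, hr, fun x ν hν => ?_⟩
  · rintro _ ⟨x, rfl⟩
    exact mem_interior_iff_mem_nhds.2 (near_local he hi hd hr x).1
  · obtain ⟨h1, h2⟩ := near_local he hi hd hr x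
    have h3 : HasFDerivAt (fun t : ℝ => e x + t • ν) ((ContinuousLinearMap.id ℝ ℝ).smulRight ν) 0 :=
      ((hasFDerivAt_id (0 : ℝ)).smul_const ν).const_add (e x)
    have h4 : Tendsto (fun t : ℝ => e x + t • ν) (𝓝 0) (𝓝 (e x)) := by
      simpa using h3.continuousAt.tendsto
    have h5 : (r ∘ fun t : ℝ => e x + t • ν) =ᶠ[𝓝 0] fun _ => x := by
      filter_upwards [h4.eventually h2] with t ht
      exact ht fun v => by rw [add_sub_cancel_left, real_inner_smul_left, hν, mul_zero]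
    have h6 : HasMFDerivAt 𝓘(ℝ, F) 𝓘(ℝ, E) r (e x + (0 : ℝ) • ν) (mfderiv 𝓘(ℝ, F) 𝓘(ℝ, E) r (e x)) := by
      rw [zero_smul, add_zero]
      exact (h1.self_of_nhds.mdifferentiableAt (by simp)).hasMFDerivAt
    have h7 := (h6.comp 0 h3.hasMFDerivAt).mfderiv
    rw [h5.mfderiv_eq, mfderiv_const] at h7
    exact (congrArg (mfderiv 𝓘(ℝ, F) 𝓘(ℝ, E) r (e x)) (one_smul ℝ ν).symm).trans
      (congrArg (fun t => t (1 : ℝ)) h7).symm

end Pool.Agent.Lib.MP_1c0d65_gt.Emb
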