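import Pool.Agent.Lib.MP_1c0d65_gt.PW.Int
import Pool.Agent.Lib.MP_1c0d65_gt.Df.Euc
import Pool.Agent.Lib.MP_1c0d65_gt.Emb.Retr

/-! The manifold as a retract of an open set of a euclidean space; tensors in the ambient space. -/

set_option autoImplicit false
set_option linter.unusedSectionVars false

open scoped Manifold ContDiff Topology
open Set Filter Function

noncomputable section

namespace Pool.Agent.Lib.MP_1c0d65_gt.Emb

open PW

variable {X : Type} [TopologicalSpace X] [ChartedSpace E X]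
  {V V' G : Type} [NormedAddCommGroup V] [NormedSpace ℝ V] [NormedAddCommGroup V'] [NormedSpace ℝ V']
  [NormedAddCommGroup G] [NormedSpace ℝ G]

theorem dif_comp {f : V → X} {g : V' → V} {y : V'}
    (hf : MDifferentiableAt 𝓘(ℝ, V) 𝓘(ℝ, E) f (g y)) (hg : DifferentiableAt ℝ g y) :
    dif (f ∘ g) y = (dif f (g y)).comp (fderiv ℝ g y) := by
  have := mfderiv_comp y hf hg.mdifferentiableAt
  rw [mfderiv_eq_fderiv] at this
  exact this

theorem fderiv_dfn {g : X → V'} {f : V → X} {y : V}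
    (hg : MDifferentiableAt 𝓘(ℝ, E) 𝓘(ℝ, V') g (f y))
    (hf : MDifferentiableAt 𝓘(ℝ, V) 𝓘(ℝ, E) f y) :
    fderiv ℝ (g ∘ f) y = (dfn g (f y)).comp (dif f y) := by
  have := mfderiv_comp y hg hf
  rw [mfderiv_eq_fderiv] at this
  exact this

theorem dif_congr {f g : V → X} {y : V} (h : f =ᶠ[𝓝 y] g) : dif f y = dif g y := h.mfderiv_eq

theorem contDiff_flip {n : WithTop ℕ∞} : ContDiff ℝ n (fun L : V →L[ℝ] V' →L[ℝ] G => L.flip) :=
  IsBoundedLinearMap.contDiff ⟨⟨fun _ _ => rfl, fun _ _ => rfl⟩, 1, one_pos, fun L => by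
    rw [one_mul, ContinuousLinearMap.opNorm_flip]⟩

theorem contDiffAt_bil {P W : Type} [NormedAddCommGroup P] [NormedSpace ℝ P] [NormedAddCommGroup W]
    [NormedSpace ℝ W] {n : WithTop ℕ∞} {A : P → Bil G W} {f : P → V →L[ℝ] G} {g : P → V' →L[ℝ] G}
    {p : P} (hA : ContDiffAt ℝ n A p) (hf : ContDiffAt ℝ n f p) (hg : ContDiffAt ℝ n g p) :
    ContDiffAt ℝ n (fun q => (A q).bilinearComp (f q) (g q)) p :=
  contDiff_flip.contDiffAt.comp p
    ((contDiff_flip.contDiffAt.comp p (hA.clm_comp hf)).clm_comp hg)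

variable [IsManifold 𝓘(ℝ, E) ∞ X]

theorem par_smooth (x : X) {y : E} (hy : y ∈ (chartAt E x).target) :
    ContMDiffAt 𝓘(ℝ, E) 𝓘(ℝ, E) ∞ (par x) y :=
  (contMDiffOn_chart_symm (x := x)).contMDiffAt ((chartAt E x).open_target.mem_nhds hy)

theorem chart_smooth (x : X) {a : X} (ha : a ∈ (chartAt E x).source) :
    ContMDiffAt 𝓘(ℝ, E) 𝓘(ℝ, E) ∞ (chartAt E x) a :=
  (contMDiffOn_chart (x := x)).contMDiffAt ((chartAt E x).open_source.mem_nhds ha)

theorem par_inv (x : X) {y : E} (hy : y ∈ (chartAt E x).target) :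
    (dif (par x) y).IsInvertible :=
  ⟨(mdifferentiable_chart (I := 𝓘(ℝ, E)) x).symm.mfderiv hy, rfl⟩

theorem par_pullJ (x : X) {y : E} (hy : y ∈ (chartAt E x).target) (J : X → E →L[ℝ] E) (v : E) :
    dif (par x) y (pullJ (par x) J y v) = J (par x y) (dif (par x) y v) :=
  (par_inv x hy).self_apply_inverse _

theorem dom_univ (x : X) : dom x univ = (chartAt E x).target := by simp [dom]

/-- A plot in a chart. -/
theorem plot_chart {f : V → X} {y : V} (hf : ContMDiffAt 𝓘(ℝ, V) 𝓘(ℝ, E) ∞ f y) {x : X}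
    (hx : f y ∈ (chartAt E x).source) :
    ContDiffAt ℝ ∞ (chartAt E x ∘ f) y ∧ ∀ᶠ z in 𝓝 y, f z ∈ (chartAt E x).source ∧
      dif f z = (dif (par x) (chartAt E x (f z))).comp (fderiv ℝ (chartAt E x ∘ f) z) := by
  have h1 : ContDiffAt ℝ ∞ (chartAt E x ∘ f) y := ((chart_smooth x hx).comp y hf).contDiffAt
  refine ⟨h1, ?_⟩
  have h2 : ∀ᶠ z in 𝓝 y, f z ∈ (chartAt E x).source :=
    hf.continuousAt.eventually ((chartAt E x).open_source.mem_nhds hx)
  filter_upwards [h2.eventually_nhds, (h1.of_le (m := 1) (by simp)).eventually (by simp)]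
    with z hz hd
  refine ⟨hz.self_of_nhds, ?_⟩
  exact (dif_congr (hz.mono fun w hw => ((chartAt E x).left_inv hw).symm)).trans
    (dif_comp (f := par x) (g := chartAt E x ∘ f) ((par_smooth x ((chartAt E x).map_source
      hz.self_of_nhds)).mdifferentiableAt (by simp)) (hd.differentiableAt (by simp)))

/-- The pull-back of a smooth two-form along a plot is smooth. -/
theorem pull2_smooth {W : Type} [NormedAddCommGroup W] [NormedSpace ℝ W] {U : Set X}
    (hU : IsOpen U) {α : X → Bil E W} (hα : Form U α) {f : V → X} {y : V}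
    (hf : ContMDiffAt 𝓘(ℝ, V) 𝓘(ℝ, E) ∞ f y) (hy : f y ∈ U) : ContDiffAt ℝ ∞ (pull2 f α) y := by
  obtain ⟨h1, h2⟩ := plot_chart hf (mem_chart_source E (f y))
  set c := chartAt E (f y)
  have h3 : ContDiffAt ℝ ∞ (pull2 (par (f y)) α) (c (f y)) :=
    (hα.2 (f y)).contDiffAt ((c.isOpen_inter_preimage_symm hU).mem_nhds
      ⟨mem_chart_target E _, by simpa [par, c] using hy⟩)
  have h4 := h1.fderiv_right (m := ∞) (by simp)
  refine (contDiffAt_bil (h3.comp y h1) h4 h4).congr_of_eventuallyEq (h2.mono fun z hz => ?_)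
  ext a b
  simp only [pull2, ContinuousLinearMap.bilinearComp_apply, hz.2, ContinuousLinearMap.comp_apply,
    comp_apply]
  rw [show par (f y) (c (f z)) = f z from c.left_inv hz.1]

/-- The manifold `X` as a smooth retract of an open subset of `G`. -/
structure Rt (X G : Type) [TopologicalSpace X] [ChartedSpace E X] [NormedAddCommGroup G]
    [NormedSpace ℝ G] where
  e : X → G
  ρ : G → X
  W : Set G
  opW : IsOpen W
  sub : ∀ x, e x ∈ W
  sme : ContMDiff 𝓘(ℝ, E) 𝓘(ℝ, G) ∞ e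
  smρ : ∀ y ∈ W, ContMDiffAt 𝓘(ℝ, G) 𝓘(ℝ, E) ∞ ρ y
  inv : ∀ x, ρ (e x) = x

theorem exists_rt [T2Space X] [CompactSpace X] [Nonempty X] :
    ∃ M : ℕ, Nonempty (Rt X (EuclideanSpace ℝ (Fin M))) := by
  obtain ⟨M, e, he, hi, hd⟩ := exists_embedding_euclidean_of_compact (I := 𝓘(ℝ, E)) (M := X)
  obtain ⟨U, r, hU, hs, hr, hre, -⟩ := exists_retr he hi.injective hd
  exact ⟨M, ⟨⟨e, r, U, hU, fun x => hs ⟨x, rfl⟩, he,
    fun y hy => hr.contMDiffAt (hU.mem_nhds hy), hre⟩⟩⟩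

namespace Rt

variable (R : Rt X G)

theorem inj : Injective R.e := LeftInverse.injective R.inv

theorem mde (x : X) : MDifferentiableAt 𝓘(ℝ, E) 𝓘(ℝ, G) R.e x :=
  (R.sme x).mdifferentiableAt (by simp)

theorem mdρ {y : G} (hy : y ∈ R.W) : MDifferentiableAt 𝓘(ℝ, G) 𝓘(ℝ, E) R.ρ y :=
  (R.smρ y hy).mdifferentiableAt (by simp)

theorem dρ_de (x : X) (v : E) : dif R.ρ (R.e x) (dfn R.e x v) = v := by
  have h := mfderiv_comp x (R.mdρ (R.sub x)) (R.mde x)
  rw [show R.ρ ∘ R.e = id from funext R.inv, mfderiv_id] at h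
  exact (congrArg (fun t => t v) h).symm

theorem de_inj (x : X) : Injective (dfn R.e x) := LeftInverse.injective (R.dρ_de x)

/-- The retraction in the ambient space. -/
def r : G → G := R.e ∘ R.ρ

theorem smr {y : G} (hy : y ∈ R.W) : ContDiffAt ℝ ∞ R.r y :=
  ((R.sme _).comp y (R.smρ y hy)).contDiffAt

theorem fderiv_r {y : G} (hy : y ∈ R.W) :
    fderiv ℝ R.r y = (dfn R.e (R.ρ y)).comp (dif R.ρ y) := fderiv_dfn (R.mde _) (R.mdρ hy)

theorem fderiv_r_e (x : X) (v : G) : fderiv ℝ R.r (R.e x) v = dfn R.e x (dif R.ρ (R.e x) v) := by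
  rw [R.fderiv_r (R.sub x), R.inv]; rfl

/-- A field of endomorphisms, in the ambient space. -/
def J (J : X → E →L[ℝ] E) (y : G) : G →L[ℝ] G :=
  (dfn R.e (R.ρ y)).comp ((J (R.ρ y)).comp (dif R.ρ y))

theorem J_e (J : X → E →L[ℝ] E) (x : X) (v : G) :
    R.J J (R.e x) v = dfn R.e x (J x (dif R.ρ (R.e x) v)) := by
  rw [Rt.J, R.inv]; rfl

theorem J_de (J : X → E →L[ℝ] E) (x : X) (v : E) :
    R.J J (R.e x) (dfn R.e x v) = dfn R.e x (J x v) := by rw [R.J_e, R.dρ_de]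

theorem smJ {F : ℝ → X → E →L[ℝ] E} (hF : ∀ x, ContDiffOn ℝ ∞
    (fun p : ℝ × E => pullJ (par x) (F p.1) p.2) (univ ×ˢ dom x univ)) {p : ℝ × G}
    (hp : p.2 ∈ R.W) : ContDiffAt ℝ ∞ (fun q : ℝ × G => R.J (F q.1) q.2) p := by
  obtain ⟨h1, h2⟩ := plot_chart (R.smρ _ hp) (mem_chart_source E (R.ρ p.2))
  set x := R.ρ p.2
  set c := chartAt E x
  have ht : c x ∈ c.target := mem_chart_target E x
  have h3 : ContDiffAt ℝ ∞ (fun q : ℝ × G => (c ∘ R.ρ) q.2) p := h1.comp p contDiffAt_snd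
  have h4 : ContDiffAt ℝ ∞ (fun q : ℝ × G => pullJ (par x) (F q.1) ((c ∘ R.ρ) q.2)) p :=
    ((hF x).contDiffAt ((isOpen_univ.prod (dom_univ x ▸ c.open_target)).mem_nhds
      ⟨trivial, (dom_univ x).symm ▸ ht⟩)).comp p (contDiffAt_fst.prodMk h3)
  have h5 : ContDiffAt ℝ ∞ (fun q : ℝ × G => fderiv ℝ (c ∘ R.ρ) q.2) p :=
    (h1.fderiv_right (m := ∞) (by simp)).comp p contDiffAt_snd
  have h6 : ContDiffAt ℝ ∞ (R.e ∘ par x) (c x) := ((R.sme _).comp _ (par_smooth x ht)).contDiffAt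
  have h7 : ContDiffAt ℝ ∞ (fun q : ℝ × G => fderiv ℝ (R.e ∘ par x) ((c ∘ R.ρ) q.2)) p :=
    ContDiffAt.comp p (g := fderiv ℝ (R.e ∘ par x)) (h6.fderiv_right (m := ∞) (by simp)) h3
  refine (h7.clm_comp (h4.clm_comp h5)).congr_of_eventuallyEq ?_
  filter_upwards [continuous_snd.continuousAt.eventually h2] with q hq
  have h8 := c.map_source hq.1
  have h9 : par x (c (R.ρ q.2)) = R.ρ q.2 := c.left_inv hq.1
  ext v
  rw [comp_apply, fderiv_dfn (R.mde _) ((par_smooth x h8).mdifferentiableAt (by simp))]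
  simp only [Rt.J, hq.2, ContinuousLinearMap.comp_apply]
  rw [par_pullJ x h8, h9]

/-- The ambient structure of a family of almost complex structures. -/
def amb [MeasurableSpace X] {c : Ctx X} {F : ℝ → X → E →L[ℝ] E} (hF : c.Fam F) : Amb G where
  K := range R.e
  W := R.W
  r := R.r
  J := fun q => R.J (F q.1) q.2
  opW := R.opW
  sub := by rintro _ ⟨x, rfl⟩; exact R.sub x
  smr := fun y hy => (R.smr hy).contDiffWithinAt
  rK := fun y _ => ⟨_, rfl⟩
  rid := by rintro _ ⟨x, rfl⟩; exact congrArg R.e (R.inv x)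
  smJ := fun p hp => (R.smJ hF.2 hp.2).contDiffWithinAt
  dim := by
    rintro _ ⟨x, rfl⟩
    have h : LinearMap.range (fderiv ℝ R.r (R.e x)).toLinearMap =
        LinearMap.range (dfn R.e x).toLinearMap := by
      refine le_antisymm ?_ ?_
      · rintro _ ⟨v, rfl⟩
        exact ⟨_, (R.fderiv_r_e x v).symm⟩
      · rintro _ ⟨v, rfl⟩
        exact ⟨dfn R.e x v, (R.fderiv_r_e x _).trans (congrArg _ (R.dρ_de x v))⟩
    rw [h, LinearMap.finrank_range_of_inj (R.de_inj x)]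
    simp [E]
  tan := by
    rintro t _ ⟨x, rfl⟩ v
    rw [R.J_e, R.fderiv_r_e, R.dρ_de]
  sq := by
    rintro t _ ⟨x, rfl⟩ v
    rw [R.J_e _ x v, R.J_de, ((hF.1 t).1 x trivial _).1, map_neg, R.fderiv_r_e]

end Rt

end Pool.Agent.Lib.MP_1c0d65_gt.Emb
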