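import Pool.Agent.Lib.MP_1c0d65_gt.Emb.Sph

/-! Homotopy invariance of the integral of a closed two-form on the sphere. -/

set_option autoImplicit false

open scoped ContDiff Topology Real
open Set Filter Function MeasureTheory Metric
open Complex (I)

noncomputable section

namespace Pool.Agent.Lib.MP_1c0d65_gt.Emb

theorem swap_int {F F' : ℝ → ℂ → ℝ} (hF' : Continuous (uncurry F'))
    (hd : ∀ t z, HasDerivAt (fun s => F s z) (F' t z) t) (hF : ∀ t, Continuous (F t)) {χ : ℂ → ℝ}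
    (hχ : Continuous χ) (hc : HasCompactSupport χ) :
    (∫ z, χ z * F 1 z) - ∫ z, χ z * F 0 z = ∫ t in (0 : ℝ)..1, ∫ z, χ z * F' t z := by
  have hg : Continuous fun p : ℝ × ℂ => χ p.2 * F' p.1 p.2 := (hχ.comp continuous_snd).mul hF'
  have hi : Integrable (uncurry fun t z => χ z * F' t z)
      ((volume.restrict (uIoc (0 : ℝ) 1)).prod volume) := by
    have h1 : IntegrableOn (fun p : ℝ × ℂ => χ p.2 * F' p.1 p.2) (Icc 0 1 ×ˢ tsupport χ) :=
      hg.continuousOn.integrableOn_compact (isCompact_Icc.prod hc)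
    have h2 := h1.of_forall_sdiff_eq_zero (t := uIoc (0 : ℝ) 1 ×ˢ univ)
      (measurableSet_uIoc.prod MeasurableSet.univ) fun p hp => by
        rw [image_eq_zero_of_notMem_tsupport (f := χ) fun h => hp.2 ⟨?_, h⟩, zero_mul]
        exact Ioc_subset_Icc_self (uIoc_of_le (zero_le_one' ℝ) ▸ hp.1.1)
    rwa [IntegrableOn, Measure.volume_eq_prod, ← Measure.prod_restrict, Measure.restrict_univ] at h2
  rw [intervalIntegral_integral_swap hi, ← integral_sub (intg_cut hχ hc (hF 1)) (intg_cut hχ hc (hF 0))]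
  refine integral_congr_ae (ae_of_all _ fun z => ?_)
  simp only
  rw [intervalIntegral.integral_const_mul, intervalIntegral.integral_eq_sub_of_hasDerivAt
    (fun t _ => hd t z) ((hF'.comp (continuous_id.prodMk continuous_const)).intervalIntegrable 0 1),
    mul_sub]

theorem swap_cont {F' : ℝ → ℂ → ℝ} (hF' : Continuous (uncurry F')) {χ : ℂ → ℝ}
    (hχ : Continuous χ) (hc : HasCompactSupport χ) : Continuous fun t => ∫ z, χ z * F' t z := by
  have hg : Continuous (uncurry fun t z => χ z * F' t z) := (hχ.comp continuous_snd).mul hF'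
  refine (continuous_parametric_integral_of_continuous (μ := volume) hg hc).congr fun t => ?_
  exact setIntegral_eq_integral_of_forall_compl_eq_zero fun z hz => by
    rw [image_eq_zero_of_notMem_tsupport hz, zero_mul]

/-- A closed two-form of class `C^1` on the product of the line and the plane. -/
structure Cl (A : ℝ × ℂ → (ℝ × ℂ) →L[ℝ] (ℝ × ℂ) →L[ℝ] ℝ) : Prop where
  sm : ContDiff ℝ 1 A
  alt : ∀ p a b, A p a b = -A p b a
  cl : ∀ p a b c, fderiv ℝ A p a b c + fderiv ℝ A p b c a + fderiv ℝ A p c a b = 0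

variable {A A0 A1 : ℝ × ℂ → (ℝ × ℂ) →L[ℝ] (ℝ × ℂ) →L[ℝ] ℝ}

/-- The contraction with the time direction. -/
def con (A : ℝ × ℂ → (ℝ × ℂ) →L[ℝ] (ℝ × ℂ) →L[ℝ] ℝ) (t : ℝ) (z : ℂ) : ℂ →L[ℝ] ℝ :=
  (A (t, z) (1, 0)).comp (ContinuousLinearMap.inr ℝ ℝ ℂ)

theorem Cl.app (h : Cl A) (p a b : ℝ × ℂ) : HasFDerivAt (fun q => A q a b)
    ((((fderiv ℝ A p).flip a).flip b)) p := by
  have := ((h.sm.differentiable one_ne_zero p).hasFDerivAt.clm_apply
    (hasFDerivAt_const a p)).clm_apply (hasFDerivAt_const b p)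
  exact this.congr_fderiv (by ext <;> simp)

theorem Cl.dalt (h : Cl A) (p c a b : ℝ × ℂ) : fderiv ℝ A p c a b = -fderiv ℝ A p c b a := by
  have h1 := (h.app p a b).unique ((h.app p b a).neg.congr_of_eventuallyEq
    (Eventually.of_forall fun q => h.alt q a b))
  exact congrArg (fun t : (ℝ × ℂ) →L[ℝ] ℝ => t c) h1

theorem Cl.con_sm (h : Cl A) (t : ℝ) : ContDiff ℝ 1 (con A t) :=
  ((h.sm.comp (contDiff_const.prodMk contDiff_id)).clm_apply contDiff_const).clm_comp contDiff_const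

theorem Cl.dd_con (h : Cl A) (t : ℝ) (z : ℂ) :
    dd (con A t) z = fderiv ℝ A (t, z) (1, 0) (0, 1) (0, I) := by
  have key : ∀ v w : ℂ, fderiv ℝ (con A t) z v w = fderiv ℝ A (t, z) (0, v) (1, 0) (0, w) := by
    intro v w
    rw [← fderiv_app ((h.con_sm t).differentiable one_ne_zero z)]
    exact congrArg (fun L : ℂ →L[ℝ] ℝ => L v)
      ((h.app (t, z) (1, 0) (0, w)).comp z (hasFDerivAt_prodMk_right t z)).fderiv
  have h1 := h.cl (t, z) (1, 0) (0, 1) (0, I)
  rw [h.dalt _ (0, 1) (0, I)] at h1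
  rw [dd, key, key]
  linarith

theorem Cl.cut (h : Cl A) {χ : ℂ → ℝ} (hχ : Continuous χ) (hc : HasCompactSupport χ) :
    (∫ z, χ z * A (1, z) (0, 1) (0, I)) - ∫ z, χ z * A (0, z) (0, 1) (0, I) =
      ∫ t in (0 : ℝ)..1, ∫ z, χ z * dd (con A t) z ∧
    Continuous fun t => ∫ z, χ z * dd (con A t) z := by
  have h1 := h.sm.continuous
  have h2 := h.sm.continuous_fderiv one_ne_zero
  have h3 : Continuous (uncurry fun t z => dd (con A t) z) := by
    simp only [h.dd_con]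
    exact (show Continuous fun p : ℝ × ℂ => fderiv ℝ A p (1, 0) (0, 1) (0, I) by fun_prop)
  refine ⟨swap_int (F := fun t z => A (t, z) (0, 1) (0, I)) h3 (fun t z => ?_)
    (fun t => by fun_prop) hχ hc, swap_cont h3 hχ hc⟩
  rw [h.dd_con]
  exact ((h.app (t, z) (0, 1) (0, I)).comp t (hasFDerivAt_prodMk_left t z)).hasDerivAt

/-- Homotopy invariance. -/
theorem homotopy (h0 : Cl A0) (h1 : Cl A1) (h : ∀ t z, z ≠ 0 → ∀ a b : ℝ × ℂ,
      A0 (t, z) a b = A1 (t, z⁻¹) (a.1, dinv z a.2) (b.1, dinv z b.2)) :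
    ∫ z, A0 (1, z) (0, 1) (0, I) = ∫ z, A0 (0, z) (0, 1) (0, I) := by
  obtain ⟨χ, ψ, P⟩ := exists_pu
  have c0 := h0.sm.continuous
  have c1 := h1.sm.continuous
  have s1 : ∀ t, ∫ z, A0 (t, z) (0, 1) (0, I) =
      (∫ z, χ z * A0 (t, z) (0, 1) (0, I)) + ∫ z, ψ z * A1 (t, z) (0, 1) (0, I) := fun t => by
    refine (P.split (by fun_prop) (by fun_prop) fun z hz => ?_).2
    have h2 := alt_mul ((A1 (t, z⁻¹)).bilinearComp (ContinuousLinearMap.inr ℝ ℝ ℂ)
      (ContinuousLinearMap.inr ℝ ℝ ℂ)) (dinv z 1)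
    simp only [ContinuousLinearMap.bilinearComp_apply, ContinuousLinearMap.inr_apply, norm_dinv,
      ← dinv_I] at h2
    rw [h1.alt _ (0, dinv z I), h1.alt _ (0, I)] at h2
    rw [h t z hz]
    linarith
  have s2 : ∀ t, (∫ z, χ z * dd (con A0 t) z) + ∫ z, ψ z * dd (con A1 t) z = 0 := fun t => by
    have hβ : ∀ z, z ≠ 0 → ∀ v, con A0 t z v = con A1 t z⁻¹ (dinv z v) + 0 * (v / z).im :=
      fun z hz v => by simp [con, h t z hz]
    rw [← (P.split (continuous_dd (h0.con_sm t)) (continuous_dd (h1.con_sm t))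
      (dd_compat (h0.con_sm t) (h1.con_sm t) hβ)).2, stokes (h0.con_sm t) (h1.con_sm t) hβ, mul_zero]
  obtain ⟨a0, b0⟩ := h0.cut P.sχ.continuous P.cχ
  obtain ⟨a1, b1⟩ := h1.cut P.sψ.continuous P.cψ
  have s3 := intervalIntegral.integral_add (μ := volume) (b0.intervalIntegrable 0 1)
    (b1.intervalIntegrable 0 1)
  simp only [s2, intervalIntegral.integral_zero] at s3
  rw [s1, s1]
  linarith

end Pool.Agent.Lib.MP_1c0d65_gt.Emb
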