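import Pool.Agent.Lib.MP_1c0d65_gt.PW.PlotD
import Pool.Agent.Lib.MP_1c0d65_gt.Emb.Hom

/-! Periods of spheres: homotopy invariance, and the degree of the anticanonical bundle. -/

set_option autoImplicit false
set_option linter.unusedSectionVars false

open scoped Manifold ContDiff Topology Real
open Set Filter Function MeasureTheory Metric
open Complex (I)

noncomputable section

namespace Pool.Agent.Lib.MP_1c0d65_gt.Emb

open PW

variable {X : Type} [TopologicalSpace X] [ChartedSpace E X] [IsManifold 𝓘(ℝ, E) ∞ X]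

theorem cl_pull {α : X → Bil E ℝ} (hα : Closed α) {H : ℝ × ℂ → X} (h : ∀ p, SmAt ∞ H p) :
    Cl (pull2 H α) :=
  ⟨contDiff_iff_contDiffAt.2 fun p => (hα.1.smooth isOpen_univ (h p) trivial).of_le (by simp),
    fun p _ _ => bil_skew (hα.1.1 (H p) trivial) _ _, fun p => hα.pull ((h p).of_le two_le)⟩

/-- Homotopic spheres have the same periods. -/
theorem per_homotopy {α : X → Bil E ℝ} (hα : Closed α) {H0 H1 : ℝ × ℂ → X} (h0 : ∀ p, SmAt ∞ H0 p)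
    (h1 : ∀ p, SmAt ∞ H1 p) (h : ∀ t z, z ≠ 0 → H0 (t, z) = H1 (t, z⁻¹)) :
    per (fun z => H0 (1, z)) α = per (fun z => H0 (0, z)) α := by
  have e : ∀ t z, pull2 (fun z => H0 (t, z)) α z 1 I = pull2 H0 α (t, z) (0, 1) (0, I) := by
    intro t z
    have := pull2_comp (f := H0) (g := fun z : ℂ => (t, z)) (y := z) ((h0 _).dfAt (by simp))
      (hasFDerivAt_prodMk_right t z).differentiableAt α
    rw [(hasFDerivAt_prodMk_right t z).fderiv] at this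
    exact congrArg (fun B : Bil ℂ ℝ => B 1 I) this
  simp only [per, e]
  refine homotopy (cl_pull hα h0) (cl_pull hα h1) fun t z hz a b => ?_
  have hd : HasFDerivAt (fun p : ℝ × ℂ => (p.1, p.2⁻¹)) ((ContinuousLinearMap.fst ℝ ℝ ℂ).prod
      ((dinv z).comp (ContinuousLinearMap.snd ℝ ℝ ℂ))) (t, z) :=
    hasFDerivAt_fst.prodMk (HasFDerivAt.comp (t, z) (g := fun w : ℂ => w⁻¹) (f := Prod.snd)
      (hasFDerivAt_inv hz) hasFDerivAt_snd)
  have he : H0 =ᶠ[𝓝 (t, z)] H1 ∘ fun p : ℝ × ℂ => (p.1, p.2⁻¹) :=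
    ((continuous_snd.tendsto (t, z)).eventually (isOpen_ne.eventually_mem hz)).mono
      fun p hp => h p.1 p.2 hp
  rw [(pull2_congr he α).eq_of_nhds, pull2_comp ((h1 _).dfAt (by simp)) hd.differentiableAt,
    hd.fderiv]
  rfl

/-- The angle form. -/
def ang (y : ℂ) : ℂ →L[ℝ] ℝ := Complex.imCLM.comp (ContinuousLinearMap.mul ℝ ℂ y⁻¹)

theorem ang_apply (y v : ℂ) : ang y v = (v / y).im := by
  rw [div_eq_inv_mul]; rfl

theorem ang_smooth {y : ℂ} (hy : y ≠ 0) : ContDiffAt ℝ ∞ ang y :=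
  contDiffAt_const.clm_comp ((ContinuousLinearMap.mul ℝ ℂ).contDiff.contDiffAt.comp y
    ((contDiffAt_inv ℂ hy).restrict_scalars ℝ))

theorem ext1_ang {y : ℂ} (hy : y ≠ 0) : ext1 ang y = 0 := by
  have key : ∀ v w, fderiv ℝ ang y v w = (dinv y v * w).im := fun v w => by
    rw [fderiv_ap1 ((ang_smooth hy).differentiableAt (by simp))]
    exact congrArg (fun L : ℂ →L[ℝ] ℝ => L v) (Complex.imCLM.hasFDerivAt.comp y
      ((hasFDerivAt_inv hy).mul_const w)).fderiv |>.trans (by simp [mul_comm])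
  refine bil_ext fun v w => ?_
  rw [ext1_apply, key, key, dinv_apply, dinv_apply, show -(v / y ^ 2) * w = -(w / y ^ 2) * v by ring,
    sub_self]
  rfl

/-- The differential of the argument. -/
def darg (f : ℂ → ℂ) (z : ℂ) : ℂ →L[ℝ] ℝ := (ang (f z)).comp (fderiv ℝ f z)

theorem darg_apply (f : ℂ → ℂ) (z v : ℂ) : darg f z v = (fderiv ℝ f z v / f z).im := ang_apply _ _

theorem darg_smooth {f : ℂ → ℂ} {z : ℂ} (hf : ContDiffAt ℝ ∞ f z) (h : f z ≠ 0) :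
    ContDiffAt ℝ ∞ (darg f) z :=
  ((ang_smooth h).comp z hf).clm_comp (hf.fderiv_right (by simp))

theorem ext1_darg {f : ℂ → ℂ} {z : ℂ} (hf : ContDiffAt ℝ ∞ f z) (h : f z ≠ 0) :
    ext1 (darg f) z = 0 := by
  refine (ext1_comp ((ang_smooth h).differentiableAt (by simp)) (hf.of_le two_le)).trans ?_
  rw [ext1_ang h]
  rfl

theorem darg_mul {f g k : ℂ → ℂ} {z : ℂ} (h : f =ᶠ[𝓝 z] fun w => g w * k w)
    (hg : DifferentiableAt ℝ g z) (hk : DifferentiableAt ℝ k z) (h0 : f z ≠ 0) (v : ℂ) :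
    darg f z v = darg g z v + darg k z v := by
  rw [h.eq_of_nhds] at h0
  rw [darg_apply, darg_apply, darg_apply, h.fderiv_eq, h.eq_of_nhds, fderiv_fun_mul hg hk,
    ← Complex.add_im]
  have h1 := left_ne_zero_of_mul h0
  have h2 := right_ne_zero_of_mul h0
  simp only [add_apply, smul_apply, smul_eq_mul]
  congr 1
  field_simp
  ring

/-- The connection form in a trivialisation along a plot. -/
theorem exists_beta {c : X → Bil E ℝ} {U : X → Set X} {a : X → X → E →L[ℝ] ℝ} {g : X → X → X → ℂ}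
    (hU : ∀ i, IsOpen (U i) ∧ i ∈ U i ∧ IsD (U i) (a i) c)
    (hg : ∀ i k, ContMDiffOn 𝓘(ℝ, E) 𝓘(ℝ, ℂ) ∞ (g i k) (U i ∩ U k) ∧ ∀ y ∈ U i ∩ U k, ∀ v,
      a i y v - a k y v = (dfn (g i k) y v / g i k y).im)
    {u : ℂ → X} (hu : ∀ z, SmAt ∞ u z) {f : X → ℂ → ℂ}
    (hf : ∀ i z, u z ∈ U i → ContDiffAt ℝ ∞ (f i) z ∧ f i z ≠ 0)
    (hfg : ∀ i k z, u z ∈ U i → u z ∈ U k → f i z = g i k (u z) * f k z) :
    ∃ β : ℂ → ℂ →L[ℝ] ℝ, ContDiff ℝ 1 β ∧ (∀ z, dd β z = pull2 u c z 1 I) ∧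
      ∀ i z, u z ∈ U i → β z = pull1 u (a i) z - darg (f i) z := by
  have ev : ∀ i z, u z ∈ U i → ∀ᶠ w in 𝓝 z, u w ∈ U i := fun i z hz =>
    (hu z).continuousAt.eventually ((hU i).1.mem_nhds hz)
  have key : ∀ i k z, u z ∈ U i → u z ∈ U k →
      pull1 u (a i) z - darg (f i) z = pull1 u (a k) z - darg (f k) z := fun i k z hi hk => by
    have h1 : FnAt ∞ (g i k) (u z) :=
      (hg i k).1.contMDiffAt (((hU i).1.inter (hU k).1).mem_nhds ⟨hi, hk⟩)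
    ext v
    have h2 := darg_mul (f := f i) (g := g i k ∘ u) (k := f k)
      (((ev i z hi).and (ev k z hk)).mono fun w hw => hfg i k w hw.1 hw.2)
      ((h1.comp_plot (hu z)).differentiableAt (by simp)) ((hf k z hk).1.differentiableAt (by simp))
      (hf i z hi).2 v
    rw [darg_apply (g i k ∘ u), fderiv_fn_comp (h1.mdifferentiableAt (by simp))
      ((hu z).dfAt (by simp))] at h2
    have h3 := (hg i k).2 _ ⟨hi, hk⟩ (dif u z v)
    simp only [sub_apply, pull1_apply, h2]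
    exact sub_eq_sub_iff_sub_eq_sub.2 (h3.trans (add_sub_cancel_right _ _).symm)
  have loc : ∀ z, (fun w => pull1 u (a (u w)) w - darg (f (u w)) w) =ᶠ[𝓝 z]
      pull1 u (a (u z)) + (-1 : ℝ) • darg (f (u z)) := fun z =>
    (ev _ z (hU _).2.1).mono fun w hw => (key _ _ w (hU _).2.1 hw).trans (by ext; simp [sub_eq_add_neg])
  have s1 : ∀ z, ContDiffAt ℝ ∞ (pull1 u (a (u z))) z := fun z =>
    (hU _).2.2.sm1.smooth (hU _).1 (hu z) (hU _).2.1
  have s2 : ∀ z, ContDiffAt ℝ ∞ (darg (f (u z))) z := fun z =>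
    darg_smooth (hf _ z (hU _).2.1).1 (hf _ z (hU _).2.1).2
  refine ⟨fun w => pull1 u (a (u w)) w - darg (f (u w)) w, contDiff_iff_contDiffAt.2 fun z =>
    ((((s1 z).add ((s2 z).const_smul (-1 : ℝ))).congr_of_eventuallyEq (loc z))).of_le (by simp),
    fun z => ?_, fun i z hi => key _ _ z (hU _).2.1 hi⟩
  have h1 := ext1_congr (loc z)
  rw [ext1_add (cd_diff (s1 z)) ((cd_diff (s2 z)).const_smul _), ext1_smul _ (cd_diff (s2 z)),
    ext1_darg (hf _ z (hU _).2.1).1 (hf _ z (hU _).2.1).2,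
    ← (hU _).2.2.pull (hU _).1 ((hu z).of_le two_le) (hU _).2.1] at h1
  exact (congrArg (fun B : Bil ℂ ℝ => B 1 I) h1).trans (by simp)

/-- An alternating form of type `(2,0)`. -/
def T20 (J : E →L[ℝ] E) (Ω : Bil E ℂ) : Prop := (∀ v, Ω v v = 0) ∧ ∀ v w, Ω (J v) w = I * Ω v w

/-- The period of the Chern form, from frames in the two charts. -/
theorem chern_deg {J : X → E →L[ℝ] E} {c : X → Bil E ℝ} (h : IsChern univ J c) {u v : ℂ → X}
    (hu : ∀ z, SmAt ∞ u z) (hv : ∀ z, SmAt ∞ v z) (uv : ∀ z, z ≠ 0 → u z = v z⁻¹)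
    {e0 n0 e1 n1 : ℂ → E}
    (s0 : ∀ U (Ω : X → Bil E ℂ), IsOpen U → Form U Ω → ∀ z, u z ∈ U →
      ContDiffAt ℝ ∞ (fun w => Ω (u w) (e0 w) (n0 w)) z)
    (s1 : ∀ U (Ω : X → Bil E ℂ), IsOpen U → Form U Ω → ∀ z, v z ∈ U →
      ContDiffAt ℝ ∞ (fun w => Ω (v w) (e1 w) (n1 w)) z)
    (t0 : ∀ z Ω, T20 (J (u z)) Ω → Ω ≠ 0 → Ω (e0 z) (n0 z) ≠ 0)
    (t1 : ∀ z Ω, T20 (J (v z)) Ω → Ω ≠ 0 → Ω (e1 z) (n1 z) ≠ 0) {k : ℤ} {b : ℂ}
    (tr : ∀ z, z ≠ 0 → ∀ Ω, T20 (J (u z)) Ω → Ω (e1 z⁻¹) (n1 z⁻¹) = b * z ^ k * Ω (e0 z) (n0 z)) :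
    per u c = 2 * π * k := by
  obtain ⟨U, Ω, a, g, H⟩ := h
  replace H := fun i => H i trivial
  have hU : ∀ i, IsOpen (U i) ∧ i ∈ U i ∧ IsD (U i) (a i) c := fun i =>
    ⟨(H i).1, (H i).2.1, (H i).2.2.2.2.1⟩
  have hT : ∀ i y, y ∈ U i → T20 (J y) (Ω i y) ∧ Ω i y ≠ 0 := fun i y hy =>
    ⟨⟨(H i).2.2.2.1.1 y hy, ((H i).2.2.2.2.2.1 y hy).2⟩, ((H i).2.2.2.2.2.1 y hy).1⟩
  have hg := fun i k => (H i).2.2.2.2.2.2 k trivial
  have f0 := fun i z (hz : u z ∈ U i) => And.intro (s0 _ _ (H i).1 (H i).2.2.2.1 z hz)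
    (t0 z _ (hT i _ hz).1 (hT i _ hz).2)
  have f1 := fun i z (hz : v z ∈ U i) => And.intro (s1 _ _ (H i).1 (H i).2.2.2.1 z hz)
    (t1 z _ (hT i _ hz).1 (hT i _ hz).2)
  obtain ⟨β0, a0, b0, c0⟩ := exists_beta hU (fun i k => ⟨(hg i k).1, fun y hy => ((hg i k).2 y hy).2⟩)
    hu (f := fun i w => Ω i (u w) (e0 w) (n0 w)) f0
    fun i k z hi hk => by rw [((hg i k).2 _ ⟨hi, hk⟩).1]; rfl
  obtain ⟨β1, a1, -, c1⟩ := exists_beta hU (fun i k => ⟨(hg i k).1, fun y hy => ((hg i k).2 y hy).2⟩)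
    hv (f := fun i w => Ω i (v w) (e1 w) (n1 w)) f1
    fun i k z hi hk => by rw [((hg i k).2 _ ⟨hi, hk⟩).1]; rfl
  simp only [per, ← b0]
  refine stokes a0 a1 fun z hz w => ?_
  have hi : u z ∈ U (u z) := (hU _).2.1
  have hi' : v z⁻¹ ∈ U (u z) := uv z hz ▸ hi
  have hn := isOpen_ne.eventually_mem hz
  have hd := hasFDerivAt_inv hz
  have h1 : pull1 u (a (u z)) z w = pull1 v (a (u z)) z⁻¹ (dinv z w) := by
    rw [(pull1_congr (g := v ∘ fun w => w⁻¹) (hn.mono uv) _).eq_of_nhds,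
      pull1_comp ((hv _).dfAt (by simp)) hd.differentiableAt, hd.fderiv]
    rfl
  have h2 : HasDerivAt (fun w : ℂ => b * w ^ k) (b * (k * z ^ (k - 1))) z :=
    (hasDerivAt_zpow k z (Or.inl hz)).const_mul b
  have h3 := darg_mul (f := (fun w => Ω (u z) (v w) (e1 w) (n1 w)) ∘ fun w => w⁻¹)
    (g := fun w => b * w ^ k) (k := fun w => Ω (u z) (u w) (e0 w) (n0 w)) (z := z)
    ((hn.and ((hu z).continuousAt.eventually ((hU _).1.mem_nhds hi))).mono fun y hy => by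
      have := tr y hy.1 _ (hT _ _ hy.2).1
      rwa [comp_apply, ← uv y hy.1])
    (h2.differentiableAt.restrictScalars ℝ) (cd_diff (f0 _ z hi).1) (f1 _ _ hi').2 w
  have hb : b ≠ 0 := by
    rintro rfl
    exact t1 z⁻¹ _ (hT _ _ hi').1 (hT _ _ hi').2 (by rw [← uv z hz, tr z hz _ (hT _ _ hi).1]; simp)
  have h4 : darg (fun w => b * w ^ k) z w = k * (w / z).im := by
    rw [darg_apply, (h2.hasFDerivAt.restrictScalars ℝ).fderiv, ← Complex.im_ofReal_mul]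
    congr 1
    have := zpow_ne_zero k hz
    simp only [ContinuousLinearMap.coe_restrictScalars', ContinuousLinearMap.toSpanSingleton_apply,
      smul_eq_mul, zpow_sub_one₀ hz, Complex.ofReal_intCast]
    field_simp
  have h5 : darg ((fun w => Ω (u z) (v w) (e1 w) (n1 w)) ∘ fun w => w⁻¹) z w =
      darg (fun w => Ω (u z) (v w) (e1 w) (n1 w)) z⁻¹ (dinv z w) := by
    rw [darg_apply, darg_apply, ((cd_diff (f1 _ _ hi').1).hasFDerivAt.comp z hd).fderiv]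
    rfl
  rw [c0 _ z hi, c1 _ _ hi', sub_apply, sub_apply, h1, ← h5, h3, h4]
  ring

end Pool.Agent.Lib.MP_1c0d65_gt.Emb
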