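import Pool.Agent.Lib.MP_1c0d65_gt.Emb.Amb
import Pool.Agent.Lib.MP_1c0d65_gt.Emb.Per
import Pool.Agent.Lib.MP_1c0d65_gt.C.Frm
import Pool.Agent.Lib.MP_1c0d65_gt.A.Reg

/-! Spheres in the manifold and spheres in the ambient space. -/

set_option autoImplicit false
set_option linter.unusedSectionVars false

open scoped Manifold ContDiff Topology Real
open Set Filter Function MeasureTheory Metric
open Complex (I)

noncomputable section

namespace Pool.Agent.Lib.MP_1c0d65_gt.Emb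

open PW

variable {X : Type} [TopologicalSpace X] [ChartedSpace E X] [IsManifold 𝓘(ℝ, E) ∞ X]
  {G : Type} [NormedAddCommGroup G] [NormedSpace ℝ G]

theorem cmul_lin {V : Type} [NormedAddCommGroup V] [NormedSpace ℝ V] {J : V →L[ℝ] V}
    {D : ℂ →L[ℝ] V} (h : D I = J (D 1)) (a : ℂ) : D a = cmul J a (D 1) := by
  have : a = a.re • (1 : ℂ) + a.im • I := by simp
  conv_lhs => rw [this, map_add, map_smul, map_smul, h]
  rfl

theorem cr_mul {J : E →L[ℝ] E} (hJ : ∀ v, J (J v) = -v) {D : ℂ →L[ℝ] E} (h : D I = J (D 1))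
    (a : ℂ) : D (a * I) = J (D a) := by
  rw [cmul_lin h, cmul_lin h a]
  simp only [cmul, map_add, map_smul, hJ, Complex.mul_re, Complex.mul_im, Complex.I_re, Complex.I_im]
  module

/-- Regularity of holomorphic curves of class `C^1`. -/
theorem smAt_of_one {U : Set X} (hU : IsOpen U) {om : X → Bil E ℝ} {J : X → E →L[ℝ] E}
    (hJ : Tame U om J) {u : ℂ → X} {z : ℂ} (hz : u z ∈ U)
    (h : ∀ᶠ y in 𝓝 z, SmAt 1 u y ∧ dif u y I = J (u y) (dif u y 1)) : SmAt ∞ u z := by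
  have he := isChart_chartAt (u z)
  set e := chartAt E (u z)
  have hs : u z ∈ e.source := mem_chart_source E _
  have h0 := h.self_of_nhds.1
  have h1 : ContDiffAt ℝ ∞ (pullJ e.symm J) (e (u z)) := at_of_on hU hz (hJ.2 _)
  have h2 : ContDiffAt ℝ ∞ (e ∘ u) z := by
    refine A.reg (Ψ := fun y => cx E - I • (cx E).comp (pullJ e.symm J y))
      (contDiffAt_const.sub ((contDiffAt_const.clm_comp h1).const_smul I))
      ((injective_iff_map_eq_zero _).2 fun v hv => cx_sub_eq_zero hv) (he.loc (by simp) h0 hs) ?_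
    filter_upwards [h, h0.continuousAt.eventually ((e.open_source.inter hU).mem_nhds ⟨hs, hz⟩)]
      with y hy hy'
    have h3 := (he.cr_iff (hy.1.dfAt (by simp)) hy'.1 J 1 I).1 hy.2
    have hi := he.inv (e.map_source hy'.1)
    have h4 : ∀ v, pullJ e.symm J (e (u y)) (pullJ e.symm J (e (u y)) v) = -v := fun v =>
      hi.injective (by
        rw [dif_pullJ hi, dif_pullJ hi, map_neg, e.left_inv hy'.1]
        exact (hJ.1 _ hy'.2 _).1)
    simp only [A.HolAt, h3, sub_apply, smul_apply, ContinuousLinearMap.comp_apply, comp_apply, h4,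
      map_neg, smul_sub, smul_smul, Complex.I_mul_I]
    module
  exact (SmAt.comp (g := e ∘ u) (he.smAt (e.map_source hs)) h2).congr_of_eventuallyEq
    (IsChart.symm_loc h0.continuousAt hs).symm

theorem dif_inv {u v : ℂ → X} (uv : ∀ s, s ≠ 0 → v s = u s⁻¹) {z : ℂ} (hz : z ≠ 0)
    (hu : DfAt u z⁻¹) (a : ℂ) : dif v z a = dif u z⁻¹ (dinv z a) := by
  rw [PW.dif_congr (g := u ∘ fun w => w⁻¹) ((isOpen_ne.eventually_mem hz).mono uv),
    PW.dif_comp hu (hasFDerivAt_inv hz).differentiableAt, (hasFDerivAt_inv hz).fderiv]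
  rfl

/-- A smooth holomorphic sphere in the two charts. -/
structure HS (J : X → E →L[ℝ] E) (u v : ℂ → X) : Prop where
  su : ∀ z, SmAt ∞ u z
  sv : ∀ z, SmAt ∞ v z
  cu : ∀ z, dif u z I = J (u z) (dif u z 1)
  cv : ∀ z, dif v z I = J (v z) (dif v z 1)
  uv : ∀ s, s ≠ 0 → v s = u s⁻¹

theorem HS.vu {J : X → E →L[ℝ] E} {u v : ℂ → X} (h : HS J u v) (z : ℂ) (hz : z ≠ 0) :
    u z = v z⁻¹ := by rw [h.uv _ (inv_ne_zero hz), inv_inv]

variable [MeasurableSpace X] {c : Ctx X}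

theorem oc_F {J : X → E →L[ℝ] E} {hJ : Tame univ c.om J} (C : OC (Orb.triv c J hJ)) : C.F = ∅ :=
  Finset.eq_empty_of_forall_notMem fun a ha => by
    obtain ⟨i, -⟩ := C.pu a ha
    exact i.elim0

theorem oc_hs {J : X → E →L[ℝ] E} {hJ : Tame univ c.om J} (C : OC (Orb.triv c J hJ)) :
    HS J C.u C.v := by
  have hu := C.hu
  rw [oc_F C, Finset.coe_empty, compl_empty] at hu
  have su : ∀ z, SmAt ∞ C.u z := fun z => hu.1.contMDiffAt univ_mem
  obtain ⟨r, hr, hv⟩ := C.hv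
  refine ⟨su, fun z => ?_, fun z => hu.2 z trivial, fun z => ?_, C.uv⟩
  · by_cases hz : z = 0
    · exact hz ▸ hv.1.contMDiffAt (ball_mem_nhds 0 hr)
    · exact (SmAt.comp (g := fun w : ℂ => w⁻¹) (su _) ((contDiffAt_inv ℂ hz).restrict_scalars ℝ)
        ).congr_of_eventuallyEq ((isOpen_ne.eventually_mem hz).mono C.uv)
  · by_cases hz : z = 0
    · exact hz ▸ hv.2 0 (mem_ball_self hr)
    · rw [dif_inv C.uv hz ((su _).dfAt (by simp)), dif_inv C.uv hz ((su _).dfAt (by simp)), dinv_I,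
        C.uv z hz]
      exact cr_mul (fun w => (hJ.1 _ trivial w).1) (hu.2 _ trivial) _

/-- The curve given by a nonconstant sphere. -/
def HS.oc {J : X → E →L[ℝ] E} (hJ : Tame univ c.om J) {u v : ℂ → X} (h : HS J u v)
    (nc : ∃ s, dif u s 1 ≠ 0) : OC (Orb.triv c J hJ) where
  u := u
  v := v
  F := ∅
  hu := ⟨fun z _ => (h.su z).contMDiffWithinAt, fun z _ => h.cu z⟩
  mu := fun z _ => by simp [Orb.W, Orb.triv]
  hv := ⟨1, one_pos, fun z _ => (h.sv z).contMDiffWithinAt, fun z _ => h.cv z⟩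
  v0 := by simp [Orb.W, Orb.triv]
  uv := h.uv
  pu := by simp
  nc := by simpa using nc

namespace Rt

variable (R : Rt X G)

theorem fderiv_up {u : ℂ → X} {z : ℂ} (hu : DfAt u z) (a : ℂ) :
    fderiv ℝ (R.e ∘ u) z a = dfn R.e (u z) (dif u z a) := by
  rw [fderiv_dfn (R.mde _) hu]; rfl

theorem sm_up {u : ℂ → X} (hu : ∀ z, SmAt ∞ u z) : ContDiff ℝ ∞ (R.e ∘ u) :=
  contDiff_iff_contDiffAt.2 fun z => FnAt.comp_plot (R.sme _) (hu z)

/-- A sphere in the manifold, seen in the ambient space. -/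
def up {J : X → E →L[ℝ] E} {u v : ℂ → X} (h : HS J u v) : Sph2 G :=
  ⟨R.e ∘ u, R.e ∘ v, fun z hz => congrArg R.e (h.uv z hz)⟩

theorem cr_up {J : X → E →L[ℝ] E} {u : ℂ → X} {z : ℂ} (hu : DfAt u z)
    (h : dif u z I = J (u z) (dif u z 1)) : CR (R.J J) (R.e ∘ u) z := by
  rw [CR, R.fderiv_up hu, R.fderiv_up hu, h]
  exact (R.J_de _ _ _).symm

variable {F : ℝ → X → E →L[ℝ] E} (hF : c.Fam F) {t : ℝ}

theorem up_hol {u v : ℂ → X} (h : HS (F t) u v) : (R.amb hF).HolS t (R.up h) :=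
  ⟨(R.sm_up h.su).of_le (by simp), (R.sm_up h.sv).of_le (by simp),
    by rintro _ (⟨z, rfl⟩ | ⟨z, rfl⟩) <;> exact ⟨_, rfl⟩,
    fun z => R.cr_up ((h.su z).dfAt (by simp)) (h.cu z),
    fun z => R.cr_up ((h.sv z).dfAt (by simp)) (h.cv z)⟩

theorem down {om : X → Bil E ℝ} {J : X → E →L[ℝ] E} (hJ : Tame univ om J) {w : ℂ → G}
    (hw : ContDiff ℝ 1 w) (hK : ∀ z, w z ∈ range R.e) (h : ∀ z, CR (R.J J) w z) :
    (∀ z, SmAt ∞ (R.ρ ∘ w) z) ∧ (∀ z, dif (R.ρ ∘ w) z I = J ((R.ρ ∘ w) z) (dif (R.ρ ∘ w) z 1)) ∧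
      R.e ∘ R.ρ ∘ w = w := by
  have hW : ∀ z, w z ∈ R.W := fun z => by obtain ⟨x, hx⟩ := hK z; exact hx ▸ R.sub x
  have h1 : ∀ z, SmAt 1 (R.ρ ∘ w) z := fun z =>
    SmAt.comp ((R.smρ _ (hW z)).of_le (by simp)) hw.contDiffAt
  have h2 : ∀ z, dif (R.ρ ∘ w) z I = J ((R.ρ ∘ w) z) (dif (R.ρ ∘ w) z 1) := fun z => by
    obtain ⟨x, hx⟩ := hK z
    rw [PW.dif_comp (R.mdρ (hW z)) (hw.differentiable one_ne_zero z), ContinuousLinearMap.comp_apply,
      ContinuousLinearMap.comp_apply, h z, comp_apply, ← hx, R.J_e, R.dρ_de, R.inv]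
  refine ⟨fun z => smAt_of_one isOpen_univ hJ trivial (Eventually.of_forall fun y => ⟨h1 y, h2 y⟩),
    h2, funext fun z => ?_⟩
  obtain ⟨x, hx⟩ := hK z
  rw [comp_apply, comp_apply, ← hx, R.inv]

theorem down_hs {s : Sph2 G} (h : (R.amb hF).HolS t s) :
    HS (F t) (R.ρ ∘ s.u0) (R.ρ ∘ s.u1) ∧ R.e ∘ R.ρ ∘ s.u0 = s.u0 ∧ R.e ∘ R.ρ ∘ s.u1 = s.u1 := by
  obtain ⟨a0, b0, c0⟩ := R.down (hF.1 t) h.1 (fun z => h.2.2.1 (Or.inl ⟨z, rfl⟩)) h.2.2.2.1
  obtain ⟨a1, b1, c1⟩ := R.down (hF.1 t) h.2.1 (fun z => h.2.2.1 (Or.inr ⟨z, rfl⟩)) h.2.2.2.2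
  exact ⟨⟨a0, a1, b0, b1, fun z hz => congrArg R.ρ (s.compat z hz)⟩, c0, c1⟩

/-- Close spheres have the same periods. -/
theorem per_close [CompactSpace X] : ∃ ε > 0, ∀ {J J' : X → E →L[ℝ] E} {u v u' v' : ℂ → X},
    HS J u v → HS J' u' v' → (∀ z, ‖R.e (u' z) - R.e (u z)‖ < ε) →
    (∀ z, ‖R.e (v' z) - R.e (v z)‖ < ε) → ∀ α, Closed α → per u' α = per u α := by
  obtain ⟨ε, hε, hW⟩ := (isCompact_range R.sme.continuous).exists_thickening_subset_open R.opW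
    (by rintro _ ⟨x, rfl⟩; exact R.sub x)
  refine ⟨ε, hε, fun {J J' u v u' v'} h h' hu hv α hα => ?_⟩
  let H : (ℂ → X) → (ℂ → X) → ℝ × ℂ → X := fun a b p =>
    R.ρ (R.e (a p.2) + Real.smoothTransition p.1 • (R.e (b p.2) - R.e (a p.2)))
  have sm : ∀ a b : ℂ → X, (∀ z, SmAt ∞ a z) → (∀ z, SmAt ∞ b z) →
      (∀ z, ‖R.e (b z) - R.e (a z)‖ < ε) → ∀ p, SmAt ∞ (H a b) p := fun a b ha hb hab p => by
    have h1 := (R.sm_up ha).comp (contDiff_snd (E := ℝ))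
    have h2 := (R.sm_up hb).comp (contDiff_snd (E := ℝ))
    refine SmAt.comp (f := R.ρ) (R.smρ _ (hW (mem_thickening_iff.2 ⟨_, ⟨a p.2, rfl⟩, ?_⟩)))
      (h1.add ((Real.smoothTransition.contDiff.comp contDiff_fst).smul (h2.sub h1))).contDiffAt
    rw [dist_eq_norm, add_sub_cancel_left, norm_smul, Real.norm_of_nonneg
      (Real.smoothTransition.nonneg _)]
    exact (mul_le_of_le_one_left (norm_nonneg _) (Real.smoothTransition.le_one _)).trans_lt (hab _)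
  have := per_homotopy hα (sm u u' h.su h'.su hu) (sm v v' h.sv h'.sv hv) fun t z hz => by
    simp only [H, h.vu z hz, h'.vu z hz]
  simpa [H, R.inv] using this

end Rt

end Pool.Agent.Lib.MP_1c0d65_gt.Emb
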