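import Pool.Agent.Lib.MP_1c0d65_gt.Emb.Br

/-! The degree of a normal frame, and the deformation of embedded spheres in the manifold. -/

set_option autoImplicit false
set_option linter.unusedSectionVars false

open scoped Manifold ContDiff Topology Real
open Set Filter Function MeasureTheory Metric
open Complex (I)

noncomputable section

namespace Pool.Agent.Lib.MP_1c0d65_gt.Emb

open PW

theorem T20.left {J : E →L[ℝ] E} {Ω : Bil E ℂ} (h : T20 J Ω) (a : ℂ) (v w : E) :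
    Ω (cmul J a v) w = a * Ω v w := by
  simp only [cmul, map_add, map_smul, add_apply, smul_apply, h.2, Complex.real_smul]
  conv_rhs => rw [← Complex.re_add_im a]
  ring

theorem T20.right {J : E →L[ℝ] E} {Ω : Bil E ℂ} (h : T20 J Ω) (a : ℂ) (v w : E) :
    Ω v (cmul J a w) = a * Ω v w := by
  rw [bil_skew h.1, h.left, bil_skew h.1 v w]
  ring

theorem T20.ne {J : E →L[ℝ] E} {Ω : Bil E ℂ} (h : T20 J Ω) (h0 : Ω ≠ 0) {e n : E}
    (hi : ∀ a b : ℂ, cmul J a e + cmul J b n = 0 → a = 0 ∧ b = 0) : Ω e n ≠ 0 := by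
  intro hz
  let L : E →ₗ[ℝ] E :=
    { toFun := fun p => cmul J p.1 e + cmul J p.2 n
      map_add' := fun p q => by
        simp only [cmul, Prod.fst_add, Prod.snd_add, Complex.add_re, Complex.add_im]
        module
      map_smul' := fun r p => by
        simp only [cmul, Prod.smul_fst, Prod.smul_snd, Complex.smul_re, Complex.smul_im,
          smul_eq_mul, RingHom.id_apply]
        module }
  have hL : Surjective L := LinearMap.injective_iff_surjective.1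
    ((injective_iff_map_eq_zero L).2 fun p hp => Prod.ext (hi _ _ hp).1 (hi _ _ hp).2)
  refine h0 (bil_ext fun v w => ?_)
  obtain ⟨p, rfl⟩ := hL v
  obtain ⟨q, rfl⟩ := hL w
  change Ω (cmul J p.1 e + cmul J p.2 n) (cmul J q.1 e + cmul J q.2 n) = 0
  simp only [map_add, add_apply, h.left, h.right, h.1, hz, bil_skew h.1 n e]
  simp

variable {X : Type} [TopologicalSpace X] [ChartedSpace E X] [IsManifold 𝓘(ℝ, E) ∞ X]
  {G : Type} [NormedAddCommGroup G] [NormedSpace ℝ G] [MeasurableSpace X] {c : Ctx X}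

namespace Rt

variable (R : Rt X G)

theorem dρ_cmul (J : X → E →L[ℝ] E) (x : X) (a : ℂ) (w : G) :
    dif R.ρ (R.e x) (cmul (R.J J (R.e x)) a w) = cmul (J x) a (dif R.ρ (R.e x) w) := by
  simp only [cmul, map_add, map_smul, R.J_e, R.dρ_de]

theorem cmul_de (J : X → E →L[ℝ] E) (x : X) (a : ℂ) (v : E) :
    cmul (R.J J (R.e x)) a (dfn R.e x v) = dfn R.e x (cmul (J x) a v) := by
  simp only [cmul, map_add, map_smul, R.J_de]

theorem frame_sm {u : ℂ → X} (hu : ∀ z, SmAt ∞ u z) {n : ℂ → G} (hn : ContDiff ℝ ∞ n) (U : Set X)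
    (Ω : X → Bil E ℂ) (hU : IsOpen U) (hΩ : Form U Ω) (z : ℂ) (hz : u z ∈ U) :
    ContDiffAt ℝ ∞ (fun w => Ω (u w) (dif u w 1) (dif R.ρ (R.e (u w)) (n w))) z := by
  have h1 := R.sm_up hu
  have h2 : ContDiffAt ℝ ∞ (pull2 R.ρ Ω) (R.e (u z)) :=
    hΩ.smooth hU (R.smρ _ (R.sub _)) ((R.inv _).symm ▸ hz)
  refine (((ContDiffAt.comp z (f := R.e ∘ u) h2 h1.contDiffAt).clm_apply
    (((h1.fderiv_right (m := ∞) (by simp)).clm_apply (contDiff_const (c := 1))).contDiffAt)).clm_apply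
      hn.contDiffAt).congr_of_eventuallyEq (Eventually.of_forall fun w => ?_)
  simp only [comp_apply, pull2_apply, R.fderiv_up ((hu w).dfAt (by simp)), R.dρ_de, R.inv]

theorem frame_ne {J : X → E →L[ℝ] E} {u : ℂ → X} {z : ℂ} (hu : DfAt u z) {n : G}
    (tn : fderiv ℝ R.r (R.e (u z)) n = n)
    (tr : ∀ a b : ℂ, cmul (R.J J (R.e (u z))) a (fderiv ℝ (R.e ∘ u) z 1) +
      cmul (R.J J (R.e (u z))) b n = 0 → a = 0 ∧ b = 0) (Ω : Bil E ℂ) (h : T20 (J (u z)) Ω)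
    (h0 : Ω ≠ 0) : Ω (dif u z 1) (dif R.ρ (R.e (u z)) n) ≠ 0 :=
  h.ne h0 fun a b hab => tr a b (by
    rw [← tn, R.fderiv_r_e, R.fderiv_up hu, R.cmul_de, R.cmul_de, ← map_add, hab, map_zero])

variable {F : ℝ → X → E →L[ℝ] E} (hF : c.Fam F) {t : ℝ}

/-- The adjunction formula for a sphere with a normal frame. -/
theorem degree {u v : ℂ → X} (h : HS (F t) u v) {m : ℤ} (N : (R.amb hF).NFrame t (R.up h) m)
    {cc : X → Bil E ℝ} (hc : IsChern univ (F t) cc) : per u cc = 2 * π * (m + 2) := by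
  have := chern_deg hc h.su h.sv h.vu (R.frame_sm h.su N.sm0) (R.frame_sm h.sv N.sm1)
    (fun z => R.frame_ne ((h.su z).dfAt (by simp)) (N.tan0 z) (N.tr0 z))
    (fun z => R.frame_ne ((h.sv z).dfAt (by simp)) (N.tan1 z) (N.tr1 z)) (k := m + 2) (b := -1)
    fun z hz Ω hΩ => by
      have h1 : N.n1 z⁻¹ = cmul (R.J (F t) (R.e (v z⁻¹))) (z⁻¹⁻¹ ^ m) (N.n0 z⁻¹⁻¹) :=
        N.trans z⁻¹ (inv_ne_zero hz)
      rw [dif_inv h.uv (inv_ne_zero hz) ((h.su _).dfAt (by simp)), h1, R.dρ_cmul, ← h.vu z hz,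
        inv_inv, cmul_lin (h.cu z), hΩ.left, hΩ.right, dinv_apply, zpow_add₀ hz]
      field_simp
  rw [this]
  push_cast
  rfl

end Rt

/-- Deformation of embedded spheres, from the three inputs. -/
theorem ift_of [T2Space X] [CompactSpace X] {F : ℝ → X → E →L[ℝ] E} (hF : c.Fam F) (τ0 : ℝ)
    (hch : IsChern univ (F τ0) ((2 * π * c.κ) • c.om))
    (nfr : ∀ (M : ℕ) (A : Amb (EuclideanSpace ℝ (Fin M))) (s : Sph2 (EuclideanSpace ℝ (Fin M))),
      A.HolS τ0 s → ContDiff ℝ ∞ s.u0 → ContDiff ℝ ∞ s.u1 → s.Imm →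
        ∃ m : ℤ, Nonempty (A.NFrame τ0 s m))
    (dfm : ∀ (M : ℕ) (A : Amb (EuclideanSpace ℝ (Fin M))) (s : Sph2 (EuclideanSpace ℝ (Fin M))),
      A.HolS τ0 s → ContDiff ℝ ∞ s.u0 → ContDiff ℝ ∞ s.u1 → ∀ k : ℕ, k ≤ 3 →
      A.NFrame τ0 s ((k : ℤ) - 1) → ∀ z : Fin k → ℂ, Injective z → ∀ ε : ℝ, 0 < ε →
      ∀ᶠ q : ℝ × (Fin k → EuclideanSpace ℝ (Fin M)) in 𝓝 (τ0, fun i => s.u0 (z i)),
        (∀ i, q.2 i ∈ A.K) → ∃ s' : Sph2 (EuclideanSpace ℝ (Fin M)), A.HolS q.1 s' ∧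
          (∀ i, s'.u0 (z i) = q.2 i) ∧ (∀ w, ‖s'.u0 w - s.u0 w‖ < ε) ∧
          (∀ w, ‖s'.u1 w - s.u1 w‖ < ε) ∧ ∀ w, ‖w‖ ≤ 1 →
            ‖fderiv ℝ s'.u0 w - fderiv ℝ s.u0 w‖ < ε ∧ ‖fderiv ℝ s'.u1 w - fderiv ℝ s.u1 w‖ < ε)
    (C : OC (Orb.triv c (F τ0) (hF.1 τ0))) (hE : C.Emb) (m : ℕ) (hm : m ≤ 2) (hc : C.c1 = m + 2)
    (s : Fin (m + 1) → ℂ) (hs : s.Injective) :
    ∀ᶠ p : ℝ × (Fin (m + 1) → X) in 𝓝 (τ0, fun j => C.u (s j)),
      ∃ C' : OC (Orb.triv c (F p.1) (hF.1 p.1)), (∀ α, Closed α → per C'.u α = per C.u α) ∧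
        ∀ j, p.2 j ∈ C'.img := by
  have : Nonempty X := ⟨C.v 0⟩
  obtain ⟨M, ⟨R⟩⟩ := exists_rt (X := X)
  have h := oc_hs C
  have i0 : ∀ z, dif C.u z 1 ≠ 0 := fun z => hE.2.2.1 z (by simp [oc_F C])
  have i1 : ∀ z, dif C.v z 1 ≠ 0 := fun z => by
    by_cases hz : z = 0
    · exact hz ▸ hE.2.2.2
    · intro h0
      have h1 := dif_inv (u := C.v) (v := C.u) h.vu (inv_ne_zero hz) ((h.sv _).dfAt (by simp)) 1
      rw [inv_inv, cmul_lin (h.cv z) (dinv _ _), h0] at h1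
      exact i0 _ (h1.trans (by simp [cmul]))
  have j0 : ∀ z, fderiv ℝ (R.e ∘ C.u) z 1 ≠ 0 := fun z h0 => i0 z (R.de_inj _ (by
    rw [← R.fderiv_up ((h.su z).dfAt (by simp)), h0, map_zero]))
  have j1 : ∀ z, fderiv ℝ (R.e ∘ C.v) z 1 ≠ 0 := fun z h0 => i1 z (R.de_inj _ (by
    rw [← R.fderiv_up ((h.sv z).dfAt (by simp)), h0, map_zero]))
  obtain ⟨k, ⟨N⟩⟩ := nfr M (R.amb hF) (R.up h) (R.up_hol hF h) (R.sm_up h.su) (R.sm_up h.sv) ⟨j0, j1⟩
  have hk : k = ((m + 1 : ℕ) : ℤ) - 1 := by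
    have h1 := R.degree hF h N hch
    have h2 : per C.u ((2 * π * c.κ) • c.om) = 2 * π * C.c1 := by
      rw [OC.c1, ← mul_assoc, per, per, ← integral_const_mul]
      rfl
    rw [h2, hc, mul_right_inj' (by positivity), add_left_inj] at h1
    have h3 : (m : ℤ) = k := by exact_mod_cast h1
    rw [← h3]
    simp
  subst hk
  obtain ⟨ε, hε, hper⟩ := R.per_close
  have hδ : 0 < min ε ‖fderiv ℝ (R.e ∘ C.u) 0 1‖ := lt_min hε (norm_pos_iff.2 (j0 0))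
  have hT : Tendsto (fun p : ℝ × (Fin (m + 1) → X) => (p.1, fun j => R.e (p.2 j)))
      (𝓝 (τ0, fun j => C.u (s j))) (𝓝 (τ0, fun j => (R.up h).u0 (s j))) := by
    have := R.sme.continuous
    exact Continuous.tendsto (by fun_prop) _
  filter_upwards [hT.eventually (dfm M (R.amb hF) (R.up h) (R.up_hol hF h) (R.sm_up h.su)
    (R.sm_up h.sv) (m + 1) (by omega) N s hs _ hδ)] with p hp
  obtain ⟨s', a1, a2, a3, a4, a5⟩ := hp fun j => ⟨_, rfl⟩
  obtain ⟨h', b0, b1⟩ := R.down_hs hF a1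
  refine ⟨h'.oc (hF.1 p.1) ⟨0, fun h0 => ?_⟩, hper h h' (fun z => ?_) fun z => ?_, fun j => ?_⟩
  · have h1 := R.fderiv_up ((h'.su 0).dfAt (by simp)) 1
    rw [b0, h0, map_zero] at h1
    have h2 := (fderiv ℝ s'.u0 0 - fderiv ℝ (R.e ∘ C.u) 0).le_opNorm 1
    rw [sub_apply, h1, zero_sub, norm_neg, norm_one, mul_one] at h2
    exact absurd (((a5 0 (by simp)).1.trans_le (min_le_right _ _)).trans_le h2) (lt_irrefl _)
  · exact (congrArg (fun y => ‖y - R.e (C.u z)‖) (congrFun b0 z)).trans_lt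
      ((a3 z).trans_le (min_le_left _ _))
  · exact (congrArg (fun y => ‖y - R.e (C.v z)‖) (congrFun b1 z)).trans_lt
      ((a4 z).trans_le (min_le_left _ _))
  · exact Or.inl ⟨s j, by simp [HS.oc], (congrArg R.ρ (a2 j)).trans (R.inv _)⟩

end Pool.Agent.Lib.MP_1c0d65_gt.Emb
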